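import Pool.Agent.V7H29.DC.Riem

/-!
# Digit counts of quadratic irrationals: averages of the test function
-/

set_option autoImplicit false

open Finset

namespace Pool.Agent.V7H29.DC

section
variable {p : ℕ → ℝ} (hp : ∀ a, 0 ≤ p a)

include hp in
lemma Ga_abs {L s : ℕ} (hs : s < 8 * L) : |Ga p L s| ≤ 20000000000 * tot p (8 * L) := by
  unfold Ga tot
  rw [mul_sum]
  refine (abs_sum_le_sum_abs _ _).trans (sum_le_sum fun a ha => ?_)
  rw [abs_mul, abs_of_nonneg (hp a), mul_comm]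
  exact mul_le_mul_of_nonneg_right (Fa_abs (mem_range.mp ha) hs) (hp a)

include hp in
lemma Ga_var {L n : ℕ} (hn : n + 1 = 8 * L) :
    ∑ s ∈ range n, |Ga p L (s + 1) - Ga p L s| ≤ 880000000000 * tot p (8 * L) := by
  have h1 : ∀ s ∈ range n, |Ga p L (s + 1) - Ga p L s| ≤
      ∑ a ∈ range (8 * L), p a * |Fa L a (s + 1) - Fa L a s| := by
    intro s _
    unfold Ga
    rw [← sum_sub_distrib]
    refine (abs_sum_le_sum_abs _ _).trans (le_of_eq (sum_congr rfl fun a _ => ?_))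
    rw [← mul_sub, abs_mul, abs_of_nonneg (hp a)]
  refine (sum_le_sum h1).trans ?_
  rw [sum_comm]
  unfold tot
  rw [mul_sum]
  refine sum_le_sum fun a ha => ?_
  rw [← mul_sum, mul_comm]
  exact mul_le_mul_of_nonneg_right (var (mem_range.mp ha) hn) (hp a)

include hp in
lemma Ga_riem (L : ℕ) :
    |2 * ∑ s ∈ range (8 * L), Ga p L s - L * Ja p L| ≤ 320000000000 * tot p (8 * L) := by
  have h1 : 2 * ∑ s ∈ range (8 * L), Ga p L s - L * Ja p L =
      ∑ a ∈ range (8 * L), p a *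
        (2 * ∑ s ∈ range (8 * L), Fa L a s - L * Jr (a / L) (fr L a)) := by
    unfold Ga Ja
    rw [sum_comm, mul_sum, mul_sum, ← sum_sub_distrib]
    refine sum_congr rfl fun a _ => ?_
    rw [← mul_sum]
    ring
  rw [h1]
  unfold tot
  rw [mul_sum]
  refine (abs_sum_le_sum_abs _ _).trans (sum_le_sum fun a ha => ?_)
  rw [abs_mul, abs_of_nonneg (hp a), mul_comm]
  exact mul_le_mul_of_nonneg_right (riem (mem_range.mp ha)) (hp a)

lemma boot_sum {L k : ℕ} (hL : 0 < L) (hk : k < 7) :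
    ∑ a ∈ range (8 * L), p a * (cL (a / L) k : ℝ) =
      10000 * tot p ((k + 1) * L) - cS k * tot p (8 * L) := by
  have h1 : ∀ a ∈ range (8 * L), p a * (cL (a / L) k : ℝ) =
      (if a / L < k + 1 then 10000 * p a else 0) - cS k * p a := by
    intro a _
    unfold cL
    split_ifs <;> push_cast <;> ring
  rw [sum_congr rfl h1, sum_sub_distrib, ← mul_sum, ← sum_filter, ← mul_sum]
  unfold tot
  congr 3
  ext a
  simp only [mem_filter, mem_range]
  rw [Nat.div_lt_iff_lt_mul hL]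
  constructor
  · exact fun h => h.2
  · intro h
    refine ⟨?_, h⟩
    have : (k + 1) * L ≤ 8 * L := Nat.mul_le_mul_right L (by omega)
    omega

lemma cB_sum {L q t : ℕ} (hL : 0 < L) (hq : q < 8) (ht : t < 2)
    (hb : ∀ k < 7, (cS k : ℝ) * tot p (8 * L) ≤ 10000 * tot p ((k + 1) * L)) :
    0 ≤ ∑ a ∈ range (8 * L), p a * (cB (a / L) q t : ℝ) := by
  have h1 : ∑ a ∈ range (8 * L), p a * (cB (a / L) q t : ℝ) =
      ∑ k ∈ range 7, (cC k q t : ℝ) * ∑ a ∈ range (8 * L), p a * (cL (a / L) k : ℝ) := by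
    simp only [mul_sum]
    rw [sum_comm]
    refine sum_congr rfl fun a ha => ?_
    rw [cB_eq (cell_lt (mem_range.mp ha)) hq ht]
    push_cast
    rw [mul_sum]
    refine sum_congr rfl fun k _ => ?_
    ring
  rw [h1]
  refine sum_nonneg fun k hk => ?_
  rw [boot_sum hL (mem_range.mp hk)]
  have h2 : (0 : ℝ) ≤ cC k q t := by
    unfold cC
    push_cast
    exact Nat.cast_nonneg _
  have h3 := hb k (mem_range.mp hk)
  exact mul_nonneg h2 (by linarith)

include hp in
lemma Ga_nonneg {L s : ℕ} (hs : s < 8 * L)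
    (hb : ∀ k < 7, (cS k : ℝ) * tot p (8 * L) ≤ 10000 * tot p ((k + 1) * L)) :
    0 ≤ Ga p L s := by
  have hL : 0 < L := by omega
  have hq := cell_lt hs
  set q := s / L
  set v := fr L s with hv
  have hv0 : 0 ≤ v := fr_nonneg L s
  have hv1 : v < 1 := fr_lt hL s
  have h1 : Ga p L s = ∑ a ∈ range (8 * L), p a * (10000 * (if fr L a + v < 1 then
      cA (a / L) q 0 * (1 - fr L a - v) + cA (a / L) q 1 * fr L a + cA (a / L) q 2 * v
      else cA (a / L) q 3 * (fr L a + v - 1) + cA (a / L) q 4 * (1 - fr L a) +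
        cA (a / L) q 5 * (1 - v))) +
      ((1 - v) * ∑ a ∈ range (8 * L), p a * (cB (a / L) q 0 : ℝ) +
        v * ∑ a ∈ range (8 * L), p a * (cB (a / L) q 1 : ℝ)) := by
    unfold Ga Fa Fr
    rw [mul_sum, mul_sum, ← sum_add_distrib, ← sum_add_distrib]
    refine sum_congr rfl fun a _ => ?_
    ring
  rw [h1]
  have h2 := cB_sum (p := p) (q := q) (t := 0) hL hq (by norm_num) hb
  have h3 := cB_sum (p := p) (q := q) (t := 1) hL hq (by norm_num) hb
  have h4 : 0 ≤ ∑ a ∈ range (8 * L), p a * (10000 * (if fr L a + v < 1 then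
      cA (a / L) q 0 * (1 - fr L a - v) + cA (a / L) q 1 * fr L a + cA (a / L) q 2 * v
      else cA (a / L) q 3 * (fr L a + v - 1) + cA (a / L) q 4 * (1 - fr L a) +
        cA (a / L) q 5 * (1 - v))) := by
    refine sum_nonneg fun a ha => mul_nonneg (hp a) (mul_nonneg (by norm_num) ?_)
    have hi := cell_lt (mem_range.mp ha)
    have hu0 := fr_nonneg L a
    have hu1 := fr_lt hL a
    split_ifs with h
    · have w0 : 0 ≤ 1 - fr L a - v := by linarith
      exact add_nonneg (add_nonneg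
        (mul_nonneg (cA_real hi hq (by norm_num : 0 < 6)).1 w0)
        (mul_nonneg (cA_real hi hq (by norm_num : 1 < 6)).1 hu0))
        (mul_nonneg (cA_real hi hq (by norm_num : 2 < 6)).1 hv0)
    · have w0 : 0 ≤ fr L a + v - 1 := by linarith
      exact add_nonneg (add_nonneg
        (mul_nonneg (cA_real hi hq (by norm_num : 3 < 6)).1 w0)
        (mul_nonneg (cA_real hi hq (by norm_num : 4 < 6)).1 (by linarith)))
        (mul_nonneg (cA_real hi hq (by norm_num : 5 < 6)).1 (by linarith))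
  have h5 := mul_nonneg (by linarith : 0 ≤ 1 - v) h2
  have h6 := mul_nonneg hv0 h3
  linarith

end

/-- summation by parts against the tails -/
lemma tail {b τ M g Vt D : ℝ} {T r G d : ℕ → ℝ} {n : ℕ} (hb : 1 ≤ b) (hτ : 0 ≤ τ)
    (hr0 : r 0 = 0) (hT : ∀ s, T (s + 1) = b * T s - r (s + 1)) (hT0 : ∀ s, 0 ≤ T s)
    (hTM : ∀ s ≤ n, T s ≤ M) (hd0 : ∀ s, 0 ≤ d s) (hd : ∀ s, τ - d s ≤ T s)
    (hG0 : ∀ s ≤ n, 0 ≤ G s) (hGg : ∀ s ≤ n, G s ≤ g)
    (hV : ∑ s ∈ range n, |G (s + 1) - G s| ≤ Vt) (hD : ∑ s ∈ range n, d s ≤ D) :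
    (b - 1) * (τ * (∑ s ∈ range (n + 1), G s - g) - g * D) - M * Vt - M * g ≤
      ∑ s ∈ range (n + 1), r s * G s := by
  have hM0 : 0 ≤ M := (hT0 0).trans (hTM 0 (Nat.zero_le n))
  have hg0 : 0 ≤ g := (hG0 0 (Nat.zero_le n)).trans (hGg 0 (Nat.zero_le n))
  have h1 : ∑ s ∈ range (n + 1), r s * G s = ∑ s ∈ range n, r (s + 1) * G (s + 1) := by
    rw [sum_range_succ', hr0, zero_mul, add_zero]
  have h2 : ∀ s, r (s + 1) * G (s + 1) = (b - 1) * (T s * G (s + 1)) +
      T s * (G (s + 1) - G s) - (T (s + 1) * G (s + 1) - T s * G s) := by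
    intro s
    have := hT s
    have e : r (s + 1) = b * T s - T (s + 1) := by linarith
    rw [e]; ring
  have h3 : ∑ s ∈ range n, (T (s + 1) * G (s + 1) - T s * G s) = T n * G n - T 0 * G 0 :=
    sum_range_sub (fun s => T s * G s) n
  rw [h1, sum_congr rfl fun s _ => h2 s, sum_sub_distrib, sum_add_distrib, h3, ← mul_sum]
  have h4 : -(M * Vt) ≤ ∑ s ∈ range n, T s * (G (s + 1) - G s) := by
    have h5 : ∀ s ∈ range n, -(M * |G (s + 1) - G s|) ≤ T s * (G (s + 1) - G s) := by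
      intro s hs
      rw [mem_range] at hs
      have a1 := hT0 s
      have a2 := hTM s hs.le
      have a3 := neg_abs_le (G (s + 1) - G s)
      have a4 := abs_nonneg (G (s + 1) - G s)
      nlinarith
    have h6 := sum_le_sum h5
    rw [sum_neg_distrib, ← mul_sum] at h6
    have h7 := mul_le_mul_of_nonneg_left hV hM0
    linarith
  have h8 : τ * (∑ s ∈ range (n + 1), G s - g) - g * D ≤ ∑ s ∈ range n, T s * G (s + 1) := by
    have h9 : ∀ s ∈ range n, τ * G (s + 1) - g * d s ≤ T s * G (s + 1) := by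
      intro s hs
      rw [mem_range] at hs
      have a1 := hd s
      have a2 := hG0 (s + 1) hs
      have a3 := hGg (s + 1) hs
      have a4 := hd0 s
      nlinarith
    have h10 := sum_le_sum h9
    rw [sum_sub_distrib, ← mul_sum, ← mul_sum] at h10
    have h11 : ∑ s ∈ range (n + 1), G s = ∑ s ∈ range n, G (s + 1) + G 0 := sum_range_succ' _ _
    have h12 := hGg 0 (Nat.zero_le n)
    have h13 := mul_le_mul_of_nonneg_left hD hg0
    have h14 : τ * (∑ s ∈ range (n + 1), G s - g) ≤ τ * ∑ s ∈ range n, G (s + 1) :=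
      mul_le_mul_of_nonneg_left (by linarith) hτ
    linarith
  have h15 := mul_le_mul_of_nonneg_left h8 (by linarith : 0 ≤ b - 1)
  have h16 : T n * G n ≤ M * g :=
    mul_le_mul (hTM n le_rfl) (hGg n le_rfl) (hG0 n le_rfl) hM0
  have h17 : 0 ≤ T 0 * G 0 := mul_nonneg (hT0 0) (hG0 0 (Nat.zero_le n))
  linarith

end Pool.Agent.V7H29.DC
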