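import Pool.Agent.V7H29.DC.Poly

/-!
# Digit counts of quadratic irrationals: the finite check, part 0
-/

set_option autoImplicit false

namespace Pool.Agent.V7H29.DC

theorem chk_0 : allB (fun j => allB (fun k => chkT 0 j k) 8) 8 = true := by
  decide +kernel

theorem chk_1 : allB (fun j => allB (fun k => chkT 1 j k) 8) 8 = true := by
  decide +kernel

theorem chk_2 : allB (fun j => allB (fun k => chkT 2 j k) 8) 8 = true := by
  decide +kernel

theorem chk_3 : allB (fun j => allB (fun k => chkT 3 j k) 8) 8 = true := by
  decide +kernel

end Pool.Agent.V7H29.DC
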