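import Pool.Agent.V7H29.DC.Poly

/-!
# Digit counts of quadratic irrationals: the finite check, part 1
-/

set_option autoImplicit false

namespace Pool.Agent.V7H29.DC

theorem chk_4 : allB (fun j => allB (fun k => chkT 4 j k) 8) 8 = true := by
  decide +kernel

theorem chk_5 : allB (fun j => allB (fun k => chkT 5 j k) 8) 8 = true := by
  decide +kernel

theorem chk_6 : allB (fun j => allB (fun k => chkT 6 j k) 8) 8 = true := by
  decide +kernel

theorem chk_7 : allB (fun j => allB (fun k => chkT 7 j k) 8) 8 = true := by
  decide +kernel

end Pool.Agent.V7H29.DC
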