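import Pool.Agent.V7H29.DC.Avg

/-!
# Digit counts of quadratic irrationals: the finite inequality
-/

set_option autoImplicit false

open Finset

namespace Pool.Agent.V7H29.DC

open Pool.Agent.H394R2.Ones

lemma tot_eq (b : ℕ) (y : ℝ) {n : ℕ} (hn : 0 < n) :
    tot (fun a => (x b y a : ℝ)) n = K b y (n - 1) := by
  unfold tot K
  rw [Nat.sub_add_cancel hn]
  push_cast
  rfl

lemma cv_eq (b : ℕ) (y : ℝ) (m : ℕ) : cv (fun a => (x b y a : ℝ)) m = r b y m := by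
  unfold cv r
  push_cast
  rfl

theorem fin_ineq {b : ℕ} {y : ℝ} (hb : 2 ≤ b) (hy0 : 0 < y) (hy1 : y < 1) (hirr : Irrational y)
    {τ D : ℝ} (hτ : 0 ≤ τ) {d : ℕ → ℝ} (hd0 : ∀ m, 0 ≤ d m) (hd : ∀ m, τ - d m ≤ T b y m)
    {L : ℕ} (hL : 0 < L) (hD : ∑ m ∈ range (8 * L - 1), d m ≤ D)
    (hboot : ∀ k < 7, (cS k : ℝ) * K b y (8 * L - 1) ≤ 10000 * K b y ((k + 1) * L - 1))
    (hsmall : 1111 * (K b y (8 * L - 1) : ℝ) ^ 2 ≤ 10000 * (((b : ℝ) - 1) * τ) * L) :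
    (K b y (8 * L - 1) : ℝ) ^ 3 ≤ K b y (8 * L - 1) * (2000000 * (((b : ℝ) - 1) * τ) +
      100000 * (((b : ℝ) - 1) * D) + 4000000 * (K b y (8 * L - 1) + 1)) := by
  have hbR : (2 : ℝ) ≤ b := by exact_mod_cast hb
  set p : ℕ → ℝ := fun a => (x b y a : ℝ) with hp
  have hp0 : ∀ a, 0 ≤ p a := fun a => Nat.cast_nonneg _
  have htot : tot p (8 * L) = K b y (8 * L - 1) := tot_eq b y (by omega)
  have hbt : ∀ k < 7, (cS k : ℝ) * tot p (8 * L) ≤ 10000 * tot p ((k + 1) * L) := by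
    intro k hk
    have h1 : 0 < (k + 1) * L := Nat.mul_pos (Nat.succ_pos k) hL
    rw [htot, tot_eq b y h1]
    exact hboot k hk
  have h1 := S3_main p hp0 hL
  obtain ⟨n, hn⟩ : ∃ n, 8 * L = n + 1 := ⟨8 * L - 1, by omega⟩
  have hn' : 8 * L - 1 = n := by omega
  have hKn : tot p (8 * L) = K b y n := by rw [htot, hn']
  have h2 := tail (b := (b : ℝ)) (τ := τ) (M := (K b y n : ℝ) + 1)
    (g := 20000000000 * tot p (8 * L)) (Vt := 880000000000 * tot p (8 * L)) (D := D)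
    (T := T b y) (r := cv p) (G := Ga p L) (d := d) (n := n) (by linarith) hτ
    (by rw [cv_eq, r_zero hy0 hy1]; norm_num)
    (by intro s; rw [cv_eq]; exact T_succ hb hy0 hy1 s)
    (fun s => (T_pos hb hy0 hy1 hirr s).le)
    (fun s hs => by
      have a1 := T_le hb hy0 hy1 (b := b) s
      have a2 : (K b y s : ℝ) ≤ K b y n := by exact_mod_cast K_mono hs
      linarith)
    hd0 hd
    (fun s hs => Ga_nonneg hp0 (by omega) hbt)
    (fun s hs => (le_abs_self _).trans (Ga_abs hp0 (by omega)))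
    (Ga_var hp0 hn.symm) (by rw [← hn']; exact hD)
  rw [← hn] at h2
  have h3 := Ga_riem hp0 L
  have h4 : 0 ≤ ∑ s ∈ range (8 * L), Ga p L s :=
    sum_nonneg fun s hs => Ga_nonneg hp0 (mem_range.mp hs) hbt
  rw [hn'] at hsmall ⊢
  rw [hKn] at h1 h2 h3
  set Kt : ℝ := (K b y n : ℝ) with hKt
  have hKt0 : 0 ≤ Kt := Nat.cast_nonneg _
  set X : ℝ := ((b : ℝ) - 1) * τ with hX
  have hX0 : 0 ≤ X := mul_nonneg (by linarith) hτ
  set G := ∑ s ∈ range (8 * L), Ga p L s with hG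
  set R := ∑ s ∈ range (8 * L), cv p s * Ga p L s with hR
  set J := Ja p L with hJ
  set l : ℝ := (L : ℝ) with hl
  rw [abs_le] at h3
  obtain ⟨h5, h6⟩ := h3
  have h7 : X * (G - 20000000000 * Kt) - (((b : ℝ) - 1) * D) * (20000000000 * Kt)
      - (Kt + 1) * (880000000000 * Kt) - (Kt + 1) * (20000000000 * Kt) ≤ R := by
    rw [hX]; linarith
  have h8 : -(3200000000000000 * X * Kt) ≤ J * (10000 * X * l - 1111 * Kt ^ 2) := by
    rcases le_total 0 J with hJ0 | hJ0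
    · have e1 : 0 ≤ J * (10000 * X * l - 1111 * Kt ^ 2) := mul_nonneg hJ0 (by linarith)
      have e2 : 0 ≤ X * Kt := mul_nonneg hX0 hKt0
      linarith
    · have e1 : J * (10000 * X * l) ≤ J * (10000 * X * l - 1111 * Kt ^ 2) := by
        have := mul_nonneg (by linarith : 0 ≤ -J) (by positivity : 0 ≤ 1111 * Kt ^ 2)
        linarith
      have e2 : -(320000000000 * Kt) ≤ l * J := by linarith
      have e3 := mul_le_mul_of_nonneg_left e2 (by linarith : 0 ≤ 10000 * X)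
      linarith
  have h9 := mul_le_mul_of_nonneg_left h6 hX0
  have h9' := mul_le_mul_of_nonneg_left h5 hX0
  have hkk : 0 ≤ Kt ^ 2 := sq_nonneg _
  have hXK : 0 ≤ X * Kt := mul_nonneg hX0 hKt0
  have hD0 : 0 ≤ D := (sum_nonneg fun m _ => hd0 m).trans hD
  have hDK : 0 ≤ ((b : ℝ) - 1) * D * Kt := mul_nonneg (mul_nonneg (by linarith) hD0) hKt0
  have e : Kt ^ 3 = Kt ^ 3 := rfl
  nlinarith

end Pool.Agent.V7H29.DC
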