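import Pool.Agent.V7H29.DC.Fin

/-!
# Digit counts of quadratic irrationals: the lower limit
-/

set_option autoImplicit false

open Finset

namespace Pool.Agent.V7H29.DC

lemma sqrt_comp {c d A B : ℝ} (hc : 0 ≤ c) (hd : 0 ≤ d) (h : c ^ 2 * A ≤ d ^ 2 * B) :
    c * Real.sqrt A ≤ d * Real.sqrt B := by
  have h1 := Real.sqrt_le_sqrt h
  rwa [Real.sqrt_mul (sq_nonneg c), Real.sqrt_sq hc, Real.sqrt_mul (sq_nonneg d),
    Real.sqrt_sq hd] at h1

lemma boot_num {k : ℕ} (hk : k < 7) {l : ℝ} (hl : 10000000 ≤ l) :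
    (1000001 * (cS k : ℝ)) ^ 2 * (8 * l + 6) ≤ (9999990000 : ℝ) ^ 2 * (((k : ℝ) + 1) * l - 1) := by
  interval_cases k
  · have e : cS 0 = 3535 := by decide
    rw [e]; norm_num; linarith
  · have e : cS 1 = 4999 := by decide
    rw [e]; norm_num; linarith
  · have e : cS 2 = 6123 := by decide
    rw [e]; norm_num; linarith
  · have e : cS 3 = 7071 := by decide
    rw [e]; norm_num; linarith
  · have e : cS 4 = 7905 := by decide
    rw [e]; norm_num; linarith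
  · have e : cS 5 = 8660 := by decide
    rw [e]; norm_num; linarith
  · have e : cS 6 = 9354 := by decide
    rw [e]; norm_num; linarith

lemma cS_nonneg (k : ℕ) : (0 : ℝ) ≤ cS k := by
  unfold cS
  push_cast
  exact Nat.cast_nonneg _

theorem liminf_arg {K : ℕ → ℕ} (hmono : Monotone K) {X c0 : ℝ} (hX : 0 < X) (hc0 : 0 < c0)
    (h1 : ∃ n0 : ℕ, ∀ n : ℕ, n0 ≤ n → c0 * Real.sqrt n ≤ K n)
    (h2 : ∀ δ : ℝ, 0 < δ → ∃ C : ℝ, 0 ≤ C ∧ ∀ L : ℕ, 0 < L →
      (∀ k < 7, (cS k : ℝ) * K (8 * L - 1) ≤ 10000 * K ((k + 1) * L - 1)) →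
      1111 * (K (8 * L - 1) : ℝ) ^ 2 ≤ 10000 * X * L →
      (K (8 * L - 1) : ℝ) ^ 3 ≤ K (8 * L - 1) * (2000000 * X +
        100000 * (C * (K (8 * L - 1) + 1) + δ * L) + 4000000 * (K (8 * L - 1) + 1))) :
    ∃ n0 : ℕ, ∀ n : ℕ, n0 ≤ n → Real.sqrt (9 * X / 8) * Real.sqrt n ≤ K n := by
  by_contra hcon
  push Not at hcon
  set c' : ℝ := Real.sqrt (9 * X / 8) with hc'
  have hc'0 : 0 ≤ c' := Real.sqrt_nonneg _
  have hc'2 : c' ^ 2 = 9 * X / 8 := Real.sq_sqrt (by positivity)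
  set S : Set ℝ := {g : ℝ | ∃ n0 : ℕ, ∀ n : ℕ, n0 ≤ n → g * Real.sqrt n ≤ K n} with hS
  have hc0S : c0 ∈ S := h1
  have hbd : ∀ g ∈ S, g ≤ c' := by
    rintro g ⟨n0, hn0⟩
    obtain ⟨n, hn, hlt⟩ := hcon (max n0 1)
    have h3 := hn0 n ((le_max_left _ _).trans hn)
    have h4 : g * Real.sqrt n < c' * Real.sqrt n := lt_of_le_of_lt h3 hlt
    have h5 : (0 : ℝ) < n := by
      have : 1 ≤ n := (le_max_right _ _).trans hn
      exact_mod_cast this
    exact (lt_of_mul_lt_mul_right h4 (Real.sqrt_nonneg _)).le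
  have hbdd : BddAbove S := ⟨c', hbd⟩
  set γ : ℝ := sSup S with hγ
  have hγc0 : c0 ≤ γ := le_csSup hbdd hc0S
  have hγ0 : 0 < γ := lt_of_lt_of_le hc0 hγc0
  have hγc' : γ ≤ c' := csSup_le ⟨c0, hc0S⟩ hbd
  obtain ⟨g, ⟨n1, hn1⟩, hg⟩ := exists_lt_of_lt_csSup ⟨c0, hc0S⟩
    (show γ * (999999 / 1000000) < sSup S by rw [← hγ]; nlinarith)
  have ha : ∀ n : ℕ, n1 ≤ n → γ * (999999 / 1000000) * Real.sqrt n ≤ K n := fun n hn =>
    (mul_le_mul_of_nonneg_right hg.le (Real.sqrt_nonneg _)).trans (hn1 n hn)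
  have hb : ∀ n0 : ℕ, ∃ n : ℕ, n0 ≤ n ∧ (K n : ℝ) < γ * (1000001 / 1000000) * Real.sqrt n := by
    by_contra hcon2
    push Not at hcon2
    obtain ⟨n0, hn0⟩ := hcon2
    have : γ * (1000001 / 1000000) ∈ S := ⟨n0, hn0⟩
    have h3 := le_csSup hbdd this
    rw [← hγ] at h3
    nlinarith
  obtain ⟨C, hC0, hC⟩ := h2 (γ ^ 2 * (8 / 1000000)) (by positivity)
  set A1 : ℝ := 100000 * C + 4000000 with hA1
  have hA10 : 0 < A1 := by positivity
  set K1 : ℝ := 8 * A1 + 8000000 * X + 1 with hK1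
  have hK10 : 1 ≤ K1 := by
    have := mul_pos (by norm_num : (0 : ℝ) < 8000000) hX
    rw [hK1]; linarith
  obtain ⟨n3, hn3⟩ := exists_nat_ge ((K1 / (γ * (999999 / 1000000))) ^ 2)
  obtain ⟨n, hn, hKn⟩ := hb (8 * (n1 + 10000000 + n3 + 1) + 8)
  set L : ℕ := (n + 1) / 8 with hL
  have hL1 : n1 + 10000000 + n3 + 1 ≤ L := by omega
  have hLn : 8 * L - 1 ≤ n := by omega
  have hnL : n ≤ 8 * L + 6 := by omega
  have hLpos : 0 < L := by omega
  have hLR : (10000000 : ℝ) ≤ L := by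
    have : 10000000 ≤ L := by omega
    exact_mod_cast this
  have hnR : (n : ℝ) ≤ 8 * L + 6 := by exact_mod_cast hnL
  have hKL : (K (8 * L - 1) : ℝ) ≤ γ * (1000001 / 1000000) * Real.sqrt (8 * L + 6) := by
    have e1 : (K (8 * L - 1) : ℝ) ≤ K n := by exact_mod_cast hmono hLn
    have e2 : Real.sqrt n ≤ Real.sqrt (8 * L + 6) := Real.sqrt_le_sqrt hnR
    have e3 := mul_le_mul_of_nonneg_left e2 (by positivity : 0 ≤ γ * (1000001 / 1000000))
    linarith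
  have hK0 : (0 : ℝ) ≤ K (8 * L - 1) := Nat.cast_nonneg _
  have hboot : ∀ k < 7, (cS k : ℝ) * K (8 * L - 1) ≤ 10000 * K ((k + 1) * L - 1) := by
    intro k hk
    have e1 : L ≤ (k + 1) * L := Nat.le_mul_of_pos_left L (Nat.succ_pos k)
    have e2 := ha ((k + 1) * L - 1) (by omega)
    have e3 : (((k + 1) * L - 1 : ℕ) : ℝ) = ((k : ℝ) + 1) * L - 1 := by
      rw [Nat.cast_sub (by omega)]
      push_cast; ring
    rw [e3] at e2
    have e4 := sqrt_comp (by have := cS_nonneg k; positivity) (by norm_num)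
      (boot_num hk hLR)
    have e5 := mul_le_mul_of_nonneg_left hKL (cS_nonneg k)
    have e6 := mul_le_mul_of_nonneg_left e4 (by positivity : 0 ≤ γ / 1000000)
    have e7 : (cS k : ℝ) * (γ * (1000001 / 1000000) * Real.sqrt (8 * L + 6)) =
      γ / 1000000 * (1000001 * (cS k : ℝ) * Real.sqrt (8 * L + 6)) := by ring
    have e8 : γ / 1000000 * (9999990000 * Real.sqrt (((k : ℝ) + 1) * L - 1)) =
      10000 * (γ * (999999 / 1000000) * Real.sqrt (((k : ℝ) + 1) * L - 1)) := by ring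
    linarith
  have hγ2 : γ ^ 2 ≤ 9 * X / 8 := by
    rw [← hc'2]
    exact pow_le_pow_left₀ hγ0.le hγc' 2
  have hsmall : 1111 * (K (8 * L - 1) : ℝ) ^ 2 ≤ 10000 * X * L := by
    have e1 := pow_le_pow_left₀ hK0 hKL 2
    rw [mul_pow, Real.sq_sqrt (by positivity)] at e1
    have e2 : (γ * (1000001 / 1000000)) ^ 2 ≤ 9 * X / 8 * (1000001 / 1000000) ^ 2 := by
      rw [mul_pow]
      exact mul_le_mul_of_nonneg_right hγ2 (by positivity)
    have e3 := mul_le_mul_of_nonneg_right e2 (by positivity : (0 : ℝ) ≤ 8 * L + 6)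
    have e4 : X * (10000000 : ℝ) ≤ X * L := mul_le_mul_of_nonneg_left hLR hX.le
    nlinarith
  have h3 := hC L hLpos hboot hsmall
  -- lower bound for `K`
  have hlow := ha (8 * L - 1) (by omega)
  have e3 : ((8 * L - 1 : ℕ) : ℝ) = 8 * L - 1 := by
    rw [Nat.cast_sub (by omega)]
    push_cast; ring
  rw [e3] at hlow
  set Kt : ℝ := (K (8 * L - 1) : ℝ) with hKt
  have hlow2 : γ ^ 2 * (7 / 2 * L) ≤ Kt ^ 2 := by
    have e1 := pow_le_pow_left₀ (by positivity) hlow 2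
    rw [mul_pow, Real.sq_sqrt (by linarith)] at e1
    have e2 : γ ^ 2 * (7 / 2 * L) ≤ (γ * (999999 / 1000000)) ^ 2 * (8 * L - 1) := by
      rw [mul_pow, mul_assoc]
      refine mul_le_mul_of_nonneg_left ?_ (sq_nonneg γ)
      norm_num
      linarith
    linarith
  have hKK1 : K1 ≤ Kt := by
    have e1 : K1 / (γ * (999999 / 1000000)) ≤ Real.sqrt (8 * L - 1) := by
      apply Real.le_sqrt_of_sq_le
      refine hn3.trans ?_
      have : n3 + 1 ≤ L := by omega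
      have : (n3 : ℝ) + 1 ≤ L := by exact_mod_cast this
      linarith
    rw [div_le_iff₀ (by positivity)] at e1
    linarith
  have hKpos : 0 < Kt := by linarith
  have h4 : Kt ^ 2 ≤ 2000000 * X + 100000 * (C * (Kt + 1) + γ ^ 2 * (8 / 1000000) * L) +
      4000000 * (Kt + 1) := by
    have e1 : Kt * Kt ^ 2 ≤ Kt * (2000000 * X + 100000 * (C * (Kt + 1) +
        γ ^ 2 * (8 / 1000000) * L) + 4000000 * (Kt + 1)) := by
      calc Kt * Kt ^ 2 = Kt ^ 3 := by ring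
        _ ≤ _ := h3
    exact le_of_mul_le_mul_left e1 hKpos
  have h5 : 100000 * (γ ^ 2 * (8 / 1000000) * L) ≤ Kt ^ 2 / 4 := by nlinarith
  have h6 : 2000000 * X + A1 * (Kt + 1) ≤ Kt ^ 2 / 4 := by
    have e1 : Kt * K1 ≤ Kt * Kt := mul_le_mul_of_nonneg_left hKK1 hKpos.le
    have e2 : 1 ≤ Kt := hK10.trans hKK1
    have e3 : A1 * 1 ≤ A1 * Kt := mul_le_mul_of_nonneg_left e2 hA10.le
    have e4 : X * 1 ≤ X * Kt := mul_le_mul_of_nonneg_left e2 hX.le
    rw [hK1] at e1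
    nlinarith
  have h7 : 0 < Kt ^ 2 := by positivity
  rw [hA1] at h6
  nlinarith

end Pool.Agent.V7H29.DC
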