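import Pool.Agent.V7H29.DC.Poly

/-!
# Digit counts of quadratic irrationals: the pointwise inequality
-/

set_option autoImplicit false

namespace Pool.Agent.V7H29.DC

/-- value of a polynomial -/
noncomputable def ev (p : Q3) (u1 u2 u3 : ℝ) : ℝ :=
  p.c0 + p.c1 * u1 + p.c2 * u2 + p.c3 * u3 + p.c11 * u1 ^ 2 + p.c22 * u2 ^ 2 + p.c33 * u3 ^ 2
    + p.c12 * (u1 * u2) + p.c13 * (u1 * u3) + p.c23 * (u2 * u3)

lemma bern {p : Q3} {v0 v1 v2 v3 : V3} (h : chkS p v0 v1 v2 v3 = true)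
    {l0 l1 l2 l3 u1 u2 u3 : ℝ} (h0 : 0 ≤ l0) (h1 : 0 ≤ l1) (h2 : 0 ≤ l2) (h3 : 0 ≤ l3)
    (hs : l0 + l1 + l2 + l3 = 1)
    (e1 : 6 * u1 = l0 * v0.x1 + l1 * v1.x1 + l2 * v2.x1 + l3 * v3.x1)
    (e2 : 6 * u2 = l0 * v0.x2 + l1 * v1.x2 + l2 * v2.x2 + l3 * v3.x2)
    (e3 : 6 * u3 = l0 * v0.x3 + l1 * v1.x3 + l2 * v2.x3 + l3 * v3.x3) :
    72 * ev p u1 u2 u3 ≤ -1000000000000 := by
  simp only [chkS, neg, Bool.and_eq_true, decide_eq_true_eq] at h
  obtain ⟨⟨⟨⟨⟨⟨⟨⟨⟨g00, g01⟩, g02⟩, g03⟩, g11⟩, g12⟩, g13⟩, g22⟩, g23⟩, g33⟩ := h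
  have k00 : ((pol p v0 v0 : ℤ) : ℝ) ≤ -1000000000000 := by exact_mod_cast g00
  have k01 : ((pol p v0 v1 : ℤ) : ℝ) ≤ -1000000000000 := by exact_mod_cast g01
  have k02 : ((pol p v0 v2 : ℤ) : ℝ) ≤ -1000000000000 := by exact_mod_cast g02
  have k03 : ((pol p v0 v3 : ℤ) : ℝ) ≤ -1000000000000 := by exact_mod_cast g03
  have k11 : ((pol p v1 v1 : ℤ) : ℝ) ≤ -1000000000000 := by exact_mod_cast g11
  have k12 : ((pol p v1 v2 : ℤ) : ℝ) ≤ -1000000000000 := by exact_mod_cast g12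
  have k13 : ((pol p v1 v3 : ℤ) : ℝ) ≤ -1000000000000 := by exact_mod_cast g13
  have k22 : ((pol p v2 v2 : ℤ) : ℝ) ≤ -1000000000000 := by exact_mod_cast g22
  have k23 : ((pol p v2 v3 : ℤ) : ℝ) ≤ -1000000000000 := by exact_mod_cast g23
  have k33 : ((pol p v3 v3 : ℤ) : ℝ) ≤ -1000000000000 := by exact_mod_cast g33
  have hid : 72 * ev p u1 u2 u3 =
      l0 * l0 * (pol p v0 v0 : ℤ) + l1 * l1 * (pol p v1 v1 : ℤ) + l2 * l2 * (pol p v2 v2 : ℤ)
      + l3 * l3 * (pol p v3 v3 : ℤ) + 2 * (l0 * l1 * (pol p v0 v1 : ℤ))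
      + 2 * (l0 * l2 * (pol p v0 v2 : ℤ)) + 2 * (l0 * l3 * (pol p v0 v3 : ℤ))
      + 2 * (l1 * l2 * (pol p v1 v2 : ℤ)) + 2 * (l1 * l3 * (pol p v1 v3 : ℤ))
      + 2 * (l2 * l3 * (pol p v2 v3 : ℤ)) := by
    have f1 : u1 = (l0 * v0.x1 + l1 * v1.x1 + l2 * v2.x1 + l3 * v3.x1) / 6 := by linarith
    have f2 : u2 = (l0 * v0.x2 + l1 * v1.x2 + l2 * v2.x2 + l3 * v3.x2) / 6 := by linarith
    have f3 : u3 = (l0 * v0.x3 + l1 * v1.x3 + l2 * v2.x3 + l3 * v3.x3) / 6 := by linarith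
    have f0 : l0 = 1 - l1 - l2 - l3 := by linarith
    rw [f1, f2, f3, f0]
    unfold ev pol
    push_cast
    ring
  have hq : l0 * l0 + l1 * l1 + l2 * l2 + l3 * l3 + 2 * (l0 * l1) + 2 * (l0 * l2)
      + 2 * (l0 * l3) + 2 * (l1 * l2) + 2 * (l1 * l3) + 2 * (l2 * l3) = 1 := by
    have e : (l0 + l1 + l2 + l3) ^ 2 = 1 := by rw [hs]; norm_num
    rw [← e]; ring
  have m00 := mul_le_mul_of_nonneg_left k00 (mul_nonneg h0 h0)
  have m01 := mul_le_mul_of_nonneg_left k01 (mul_nonneg h0 h1)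
  have m02 := mul_le_mul_of_nonneg_left k02 (mul_nonneg h0 h2)
  have m03 := mul_le_mul_of_nonneg_left k03 (mul_nonneg h0 h3)
  have m11 := mul_le_mul_of_nonneg_left k11 (mul_nonneg h1 h1)
  have m12 := mul_le_mul_of_nonneg_left k12 (mul_nonneg h1 h2)
  have m13 := mul_le_mul_of_nonneg_left k13 (mul_nonneg h1 h3)
  have m22 := mul_le_mul_of_nonneg_left k22 (mul_nonneg h2 h2)
  have m23 := mul_le_mul_of_nonneg_left k23 (mul_nonneg h2 h3)
  have m33 := mul_le_mul_of_nonneg_left k33 (mul_nonneg h3 h3)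
  rw [hid]
  linarith

/-- test function -/
noncomputable def Fr (i q : ℕ) (u v : ℝ) : ℝ :=
  10000 * (if u + v < 1 then cA i q 0 * (1 - u - v) + cA i q 1 * u + cA i q 2 * v
    else cA i q 3 * (u + v - 1) + cA i q 4 * (1 - u) + cA i q 5 * (1 - v)) +
  (cB i q 0 * (1 - v) + cB i q 1 * v)

/-- twice the integral of the test function -/
noncomputable def Jr (i : ℕ) (u : ℝ) : ℝ :=
  cI i 0 * (1 - u) ^ 2 + 2 * cI i 1 * (u * (1 - u)) + cI i 2 * u ^ 2
    + 2 * cI i 3 * (u * (1 - u)) + cI i 4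

/-- bilinear form -/
noncomputable def Kr (i j k : ℕ) (u v : ℝ) : ℝ :=
  cG i (2 * j) (2 * k) * ((1 - u) * (1 - v)) + cG i (2 * j) (2 * k + 1) * ((1 - u) * v)
    + cG i (2 * j + 1) (2 * k) * (u * (1 - v)) + cG i (2 * j + 1) (2 * k + 1) * (u * v)

/-- the test function at the sum of two places -/
noncomputable def Ph (i : ℕ) (u : ℝ) (j : ℕ) (v : ℝ) (k : ℕ) (w : ℝ) : ℝ :=
  if v + w < 1 then Fr i (j + k) u (v + w) else Fr i (j + k + 1) u (v + w - 1)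

/-- one of the three roles -/
noncomputable def role (i : ℕ) (u : ℝ) (j : ℕ) (v : ℝ) (k : ℕ) (w : ℝ) : ℝ :=
  20000 * Ph i u j v k w + 200000 * Kr i j k v w - 1111 * Jr i u

/-- the kernel -/
noncomputable def W (i : ℕ) (u : ℝ) (j : ℕ) (v : ℝ) (k : ℕ) (w : ℝ) : ℝ :=
  role i u j v k w + role j v i u k w + role k w i u j v

/-- value of the polynomial of a role -/
noncomputable def evr (r : RP) (up uy uw : ℝ) : ℝ :=
  r.k0 + r.kp * up + r.ky * uy + r.kw * uw + r.kpp * up ^ 2 + r.kyw * (uy * uw)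

lemma ev_comb (r1 r2 r3 : RP) (u v w : ℝ) :
    ev (comb r1 r2 r3) u v w = evr r1 u v w + evr r2 v u w + evr r3 w u v := by
  unfold ev comb evr
  push_cast
  ring

lemma role_00 (i j k : ℕ) {u v w : ℝ} (h1 : v + w < 1) (h2 : u + (v + w) < 1) :
    role i u j v k w = evr (rp i j k 0 0) u v w := by
  unfold role Ph Fr
  rw [if_pos h1, if_pos h2]
  unfold evr rp Kr Jr
  simp only [af0, af1, af2]
  push_cast
  ring_nf

lemma role_01 (i j k : ℕ) {u v w : ℝ} (h1 : v + w < 1) (h2 : ¬ u + (v + w) < 1) :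
    role i u j v k w = evr (rp i j k 0 1) u v w := by
  unfold role Ph Fr
  rw [if_pos h1, if_neg h2]
  unfold evr rp Kr Jr
  simp only [af0, af1, af2]
  push_cast
  ring_nf

lemma role_10 (i j k : ℕ) {u v w : ℝ} (h1 : ¬ v + w < 1) (h2 : u + (v + w - 1) < 1) :
    role i u j v k w = evr (rp i j k 1 0) u v w := by
  unfold role Ph Fr
  rw [if_neg h1, if_pos h2]
  unfold evr rp Kr Jr
  simp only [af0, af1, af2]
  push_cast
  ring_nf

lemma role_11 (i j k : ℕ) {u v w : ℝ} (h1 : ¬ v + w < 1) (h2 : ¬ u + (v + w - 1) < 1) :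
    role i u j v k w = evr (rp i j k 1 1) u v w := by
  unfold role Ph Fr
  rw [if_neg h1, if_neg h2]
  unfold evr rp Kr Jr
  simp only [af0, af1, af2]
  push_cast
  ring_nf

lemma W_sorted {i j k : ℕ} (h : chkT i j k = true) {u v w : ℝ} (h0 : 0 ≤ u) (h1 : u ≤ v)
    (h2 : v ≤ w) (h3 : w < 1) : 72 * W i u j v k w ≤ -1000000000000 := by
  simp only [chkT, Bool.and_eq_true] at h
  obtain ⟨⟨⟨⟨⟨c0, c1⟩, c2⟩, c3⟩, c4⟩, c5⟩ := h
  unfold W
  by_cases s1 : u + v + w < 1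
  · rw [role_00 i j k (by linarith) (by linarith), role_00 j i k (by linarith) (by linarith),
      role_00 k i j (by linarith) (by linarith), ← ev_comb]
    refine bern c0 (l0 := 1 - (u + v + w)) (l1 := w - v) (l2 := 2 * (v - u)) (l3 := 3 * u)
      ?_ ?_ ?_ ?_ ?_ ?_ ?_ ?_ <;> push_cast <;> linarith
  by_cases s2 : v + w < 1
  · rw [role_01 i j k (by linarith) (by linarith), role_01 j i k (by linarith) (by linarith),
      role_01 k i j (by linarith) (by linarith), ← ev_comb]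
    refine bern c1 (l0 := w - v) (l1 := 2 * (v - u)) (l2 := 3 * (1 - v - w))
      (l3 := 2 * (u + v + w - 1)) ?_ ?_ ?_ ?_ ?_ ?_ ?_ ?_ <;> push_cast <;> linarith
  by_cases s3 : u + w < 1
  · rw [role_10 i j k (by linarith) (by linarith), role_01 j i k (by linarith) (by linarith),
      role_01 k i j (by linarith) (by linarith), ← ev_comb]
    refine bern c2 (l0 := w - v) (l1 := v + w - 1) (l2 := 2 * (1 - u - w))
      (l3 := 2 * u) ?_ ?_ ?_ ?_ ?_ ?_ ?_ ?_ <;> push_cast <;> linarith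
  by_cases s4 : u + v < 1
  · rw [role_10 i j k (by linarith) (by linarith), role_10 j i k (by linarith) (by linarith),
      role_01 k i j (by linarith) (by linarith), ← ev_comb]
    refine bern c3 (l0 := 1 - u - v) (l1 := v - u) (l2 := 2 * (1 - w))
      (l3 := 2 * (u + w - 1)) ?_ ?_ ?_ ?_ ?_ ?_ ?_ ?_ <;> push_cast <;> linarith
  by_cases s5 : u + v + w < 2
  · rw [role_10 i j k (by linarith) (by linarith), role_10 j i k (by linarith) (by linarith),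
      role_10 k i j (by linarith) (by linarith), ← ev_comb]
    refine bern c4 (l0 := v - u) (l1 := 2 * (2 - (u + v + w))) (l2 := 2 * (w - v))
      (l3 := 3 * (u + v - 1)) ?_ ?_ ?_ ?_ ?_ ?_ ?_ ?_ <;> push_cast <;> linarith
  · rw [role_11 i j k (by linarith) (by linarith), role_11 j i k (by linarith) (by linarith),
      role_11 k i j (by linarith) (by linarith), ← ev_comb]
    refine bern c5 (l0 := v - u) (l1 := 2 * (w - v)) (l2 := 3 * (1 - w))
      (l3 := u + v + w - 2) ?_ ?_ ?_ ?_ ?_ ?_ ?_ ?_ <;> push_cast <;> linarith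

end Pool.Agent.V7H29.DC
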