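import Pool.Agent.V7H29.DC.Poly

/-!
# Digit counts of quadratic irrationals: small checks on the tables
-/

set_option autoImplicit false

open Finset

namespace Pool.Agent.V7H29.DC

lemma allB_iff (f : ℕ → Bool) (n : ℕ) : allB f n = true ↔ ∀ i < n, f i = true := by
  induction n with
  | zero => simp [allB]
  | succ n ih =>
    simp only [allB, Bool.and_eq_true, ih]
    constructor
    · rintro ⟨h1, h2⟩ i hi
      rcases Nat.lt_succ_iff_lt_or_eq.mp hi with h | h
      · exact h2 i h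
      · rw [h]; exact h1
    · intro h
      exact ⟨h n (Nat.lt_succ_self n), fun i hi => h i (Nat.lt_succ_of_lt hi)⟩

/-- sum over `i < n` -/
def sumN (f : ℕ → ℤ) : ℕ → ℤ
  | 0 => 0
  | n + 1 => sumN f n + f n

lemma sumN_eq (f : ℕ → ℤ) (n : ℕ) : sumN f n = ∑ i ∈ range n, f i := by
  induction n with
  | zero => simp [sumN]
  | succ n ih => rw [sumN, ih, sum_range_succ]

/-- entry of `tch` -/
def cH (i s m : ℕ) : ℤ := nth 0 (nth [] (nth [] tch i) s) m

/-- entry of `tc` -/
def cC (k q t : ℕ) : ℤ := ((nth 0 (nth [] (nth [] tc k) q) t : ℕ) : ℤ)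

/-- entry of `tsg` -/
def cS (k : ℕ) : ℤ := ((nth 0 tsg k : ℕ) : ℤ)

/-- coefficient of `x_a` in the `k`-th scale condition, `a` in cell `i` -/
def cL (i k : ℕ) : ℤ := (if i < k + 1 then 10000 else 0) - cS k

theorem chkG : allB (fun i => allB (fun s => allB (fun t =>
    decide (cG i s t = sumN (fun m => cH i s m * cH i t m) 16)) 16) 16) 8 = true := by
  decide +kernel

theorem chkB : allB (fun i => allB (fun q => allB (fun t =>
    decide (cB i q t = sumN (fun k => cL i k * cC k q t) 7)) 2) 8) 8 = true := by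
  decide +kernel

theorem chkI : allB (fun i =>
    decide (cI i 0 = 10000 * sumN (fun q => cA i q 0 + cA i q 2) 8) &&
    decide (cI i 1 = 10000 * sumN (fun q => cA i q 1) 8) &&
    decide (cI i 2 = 10000 * sumN (fun q => cA i q 3 + cA i q 5) 8) &&
    decide (cI i 3 = 10000 * sumN (fun q => cA i q 4) 8) &&
    decide (cI i 4 = sumN (fun q => cB i q 0 + cB i q 1) 8)) 8 = true := by
  decide +kernel

/-- bounds for the entries -/
theorem chkBd : allB (fun i => allB (fun q =>
    allB (fun s => decide (10000 * cA i q s ≤ 10000000000)) 6 &&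
    allB (fun t => decide (cB i q t ≤ 10000000000) && decide (-10000000000 ≤ cB i q t)) 2)
      8) 8 = true := by
  decide +kernel

lemma cG_eq {i s t : ℕ} (hi : i < 8) (hs : s < 16) (ht : t < 16) :
    cG i s t = ∑ m ∈ range 16, cH i s m * cH i t m := by
  have h := (allB_iff _ _).mp chkG i hi
  have h := (allB_iff _ _).mp h s hs
  have h := (allB_iff _ _).mp h t ht
  rw [decide_eq_true_eq] at h
  rw [h, sumN_eq]

lemma cG_symm {i s t : ℕ} (hi : i < 8) (hs : s < 16) (ht : t < 16) : cG i s t = cG i t s := by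
  rw [cG_eq hi hs ht, cG_eq hi ht hs]
  exact sum_congr rfl fun m _ => mul_comm _ _

lemma cB_eq {i q t : ℕ} (hi : i < 8) (hq : q < 8) (ht : t < 2) :
    cB i q t = ∑ k ∈ range 7, cL i k * cC k q t := by
  have h := (allB_iff _ _).mp chkB i hi
  have h := (allB_iff _ _).mp h q hq
  have h := (allB_iff _ _).mp h t ht
  rw [decide_eq_true_eq] at h
  rw [h, sumN_eq]

lemma cI_eq {i : ℕ} (hi : i < 8) :
    cI i 0 = 10000 * ∑ q ∈ range 8, (cA i q 0 + cA i q 2) ∧
    cI i 1 = 10000 * ∑ q ∈ range 8, cA i q 1 ∧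
    cI i 2 = 10000 * ∑ q ∈ range 8, (cA i q 3 + cA i q 5) ∧
    cI i 3 = 10000 * ∑ q ∈ range 8, cA i q 4 ∧
    cI i 4 = ∑ q ∈ range 8, (cB i q 0 + cB i q 1) := by
  have h := (allB_iff _ _).mp chkI i hi
  simp only [Bool.and_eq_true, decide_eq_true_eq, sumN_eq] at h
  obtain ⟨⟨⟨⟨h0, h1⟩, h2⟩, h3⟩, h4⟩ := h
  exact ⟨h0, h1, h2, h3, h4⟩

lemma cA_nonneg (i q s : ℕ) : 0 ≤ cA i q s := by
  unfold cA; exact Int.natCast_nonneg _

lemma cA_le {i q s : ℕ} (hi : i < 8) (hq : q < 8) (hs : s < 6) :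
    10000 * cA i q s ≤ 10000000000 := by
  have h := (allB_iff _ _).mp chkBd i hi
  have h := (allB_iff _ _).mp h q hq
  rw [Bool.and_eq_true] at h
  have h := (allB_iff _ _).mp h.1 s hs
  rwa [decide_eq_true_eq] at h

lemma cB_abs {i q t : ℕ} (hi : i < 8) (hq : q < 8) (ht : t < 2) :
    cB i q t ≤ 10000000000 ∧ -10000000000 ≤ cB i q t := by
  have h := (allB_iff _ _).mp chkBd i hi
  have h := (allB_iff _ _).mp h q hq
  rw [Bool.and_eq_true] at h
  have h := (allB_iff _ _).mp h.2 t ht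
  rwa [Bool.and_eq_true, decide_eq_true_eq, decide_eq_true_eq] at h

lemma nth_nil {α : Type} (d : α) (n : ℕ) : nth d [] n = d := by
  cases n <;> rfl

lemma nth_ge {α : Type} (d : α) : ∀ (l : List α) (n : ℕ), l.length ≤ n → nth d l n = d
  | [], n, _ => nth_nil d n
  | _ :: l, 0, h => by simp at h
  | _ :: l, n + 1, h => by
    rw [nth]
    exact nth_ge d l n (by simpa using h)

theorem chkLen : allB (fun i => decide ((nth [] ta i).length = 8) &&
    decide ((nth [] tb i).length = 8)) 8 = true := by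
  decide +kernel

lemma cA_ge {i q : ℕ} (hi : i < 8) (hq : 8 ≤ q) (s : ℕ) : cA i q s = 0 := by
  have h := (allB_iff _ _).mp chkLen i hi
  rw [Bool.and_eq_true, decide_eq_true_eq, decide_eq_true_eq] at h
  unfold cA
  rw [nth_ge [] _ q (by omega), nth_nil]
  rfl

lemma cB_ge {i q : ℕ} (hi : i < 8) (hq : 8 ≤ q) (t : ℕ) : cB i q t = 0 := by
  have h := (allB_iff _ _).mp chkLen i hi
  rw [Bool.and_eq_true, decide_eq_true_eq, decide_eq_true_eq] at h
  unfold cB
  rw [nth_ge [] _ q (by omega), nth_nil]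

end Pool.Agent.V7H29.DC
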