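import Pool.Agent.V7H29.DC.Point
import Pool.Agent.V7H29.DC.Small
import Pool.Agent.V7H29.DC.Check0
import Pool.Agent.V7H29.DC.Check1

/-!
# Digit counts of quadratic irrationals: the pointwise inequality for all places
-/

set_option autoImplicit false

namespace Pool.Agent.V7H29.DC

lemma chk_all {i j k : ℕ} (hi : i < 8) (hj : j < 8) (hk : k < 8) : chkT i j k = true := by
  have h : allB (fun j => allB (fun k => chkT i j k) 8) 8 = true := by
    interval_cases i
    · exact chk_0
    · exact chk_1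
    · exact chk_2
    · exact chk_3
    · exact chk_4
    · exact chk_5
    · exact chk_6
    · exact chk_7
  exact (allB_iff _ _).mp ((allB_iff _ _).mp h j hj) k hk

lemma Kr_symm {i j k : ℕ} (hi : i < 8) (hj : j < 8) (hk : k < 8) (u v : ℝ) :
    Kr i j k u v = Kr i k j v u := by
  unfold Kr
  rw [cG_symm hi (by omega : 2 * k < 16) (by omega : 2 * j < 16),
    cG_symm hi (by omega : 2 * k < 16) (by omega : 2 * j + 1 < 16),
    cG_symm hi (by omega : 2 * k + 1 < 16) (by omega : 2 * j < 16),
    cG_symm hi (by omega : 2 * k + 1 < 16) (by omega : 2 * j + 1 < 16)]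
  ring

lemma Ph_symm (i j k : ℕ) (u v w : ℝ) : Ph i u j v k w = Ph i u k w j v := by
  unfold Ph
  rw [add_comm v w, add_comm j k]

lemma role_symm {i j k : ℕ} (hi : i < 8) (hj : j < 8) (hk : k < 8) (u v w : ℝ) :
    role i u j v k w = role i u k w j v := by
  unfold role
  rw [Ph_symm, Kr_symm hi hj hk]

lemma W_swap1 {i j k : ℕ} (hi : i < 8) (hj : j < 8) (hk : k < 8) (u v w : ℝ) :
    W i u j v k w = W j v i u k w := by
  unfold W
  rw [role_symm hk hi hj]
  ring

lemma W_swap2 {i j k : ℕ} (hi : i < 8) (hj : j < 8) (hk : k < 8) (u v w : ℝ) :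
    W i u j v k w = W i u k w j v := by
  unfold W
  rw [role_symm hi hj hk]
  ring

/-- the pointwise inequality -/
theorem W_neg {i j k : ℕ} (hi : i < 8) (hj : j < 8) (hk : k < 8) {u v w : ℝ} (hu0 : 0 ≤ u)
    (hu1 : u < 1) (hv0 : 0 ≤ v) (hv1 : v < 1) (hw0 : 0 ≤ w) (hw1 : w < 1) :
    72 * W i u j v k w ≤ -1000000000000 := by
  rcases le_total u v with h1 | h1
  · rcases le_total v w with h2 | h2
    · exact W_sorted (chk_all hi hj hk) hu0 h1 h2 hw1
    · rcases le_total u w with h3 | h3
      · rw [W_swap2 hi hj hk]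
        exact W_sorted (chk_all hi hk hj) hu0 h3 h2 hv1
      · rw [W_swap2 hi hj hk, W_swap1 hi hk hj]
        exact W_sorted (chk_all hk hi hj) hw0 h3 h1 hv1
  · rcases le_total u w with h2 | h2
    · rw [W_swap1 hi hj hk]
      exact W_sorted (chk_all hj hi hk) hv0 h1 h2 hw1
    · rcases le_total v w with h3 | h3
      · rw [W_swap1 hi hj hk, W_swap2 hj hi hk]
        exact W_sorted (chk_all hj hk hi) hv0 h3 h2 hu1
      · rw [W_swap1 hi hj hk, W_swap2 hj hi hk, W_swap1 hj hk hi]
        exact W_sorted (chk_all hk hj hi) hw0 h3 h1 hu1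

end Pool.Agent.V7H29.DC
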