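import Pool.Agent.V7H29.DC.Data

/-!
# Digit counts of quadratic irrationals: the polynomials of the certificate
-/

set_option autoImplicit false

namespace Pool.Agent.V7H29.DC

/-- entry of `ta` -/
def cA (i q s : ℕ) : ℤ := ((nth 0 (nth [] (nth [] ta i) q) s : ℕ) : ℤ)

/-- entry of `tb` -/
def cB (i q t : ℕ) : ℤ := nth 0 (nth [] (nth [] tb i) q) t

/-- entry of `tg` -/
def cG (i s t : ℕ) : ℤ := nth 0 (nth [] (nth [] tg i) s) t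

/-- entry of `ti` -/
def cI (i s : ℕ) : ℤ := nth 0 (nth [] ti i) s

/-- coefficients of a role -/
structure RP where
  k0 : ℤ
  kp : ℤ
  ky : ℤ
  kw : ℤ
  kpp : ℤ
  kyw : ℤ

/-- constant coefficient of the test function on a triangle -/
def af0 (i q : ℕ) : ℕ → ℤ
  | 0 => 10000 * cA i q 0 + cB i q 0
  | _ + 1 => 10000 * (cA i q 4 + cA i q 5 - cA i q 3) + cB i q 0

/-- coefficient of the first variable -/
def af1 (i q : ℕ) : ℕ → ℤ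
  | 0 => 10000 * (cA i q 1 - cA i q 0)
  | _ + 1 => 10000 * (cA i q 3 - cA i q 4)

/-- coefficient of the second variable -/
def af2 (i q : ℕ) : ℕ → ℤ
  | 0 => 10000 * (cA i q 2 - cA i q 0) + cB i q 1 - cB i q 0
  | _ + 1 => 10000 * (cA i q 3 - cA i q 5) + cB i q 1 - cB i q 0

/-- the polynomial of a role -/
def rp (ip iy iw bit m : ℕ) : RP where
  k0 := 20000 * (af0 ip (iy + iw + bit) m - bit * af2 ip (iy + iw + bit) m)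
    + 200000 * cG ip (2 * iy) (2 * iw) - 1111 * (cI ip 0 + cI ip 4)
  kp := 20000 * af1 ip (iy + iw + bit) m - 2222 * (cI ip 1 + cI ip 3 - cI ip 0)
  ky := 20000 * af2 ip (iy + iw + bit) m
    + 200000 * (cG ip (2 * iy + 1) (2 * iw) - cG ip (2 * iy) (2 * iw))
  kw := 20000 * af2 ip (iy + iw + bit) m
    + 200000 * (cG ip (2 * iy) (2 * iw + 1) - cG ip (2 * iy) (2 * iw))
  kpp := - 1111 * (cI ip 0 - 2 * cI ip 1 + cI ip 2 - 2 * cI ip 3)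
  kyw := 200000 * (cG ip (2 * iy) (2 * iw) - cG ip (2 * iy) (2 * iw + 1)
    - cG ip (2 * iy + 1) (2 * iw) + cG ip (2 * iy + 1) (2 * iw + 1))

/-- quadratic polynomials in three variables -/
structure Q3 where
  c0 : ℤ
  c1 : ℤ
  c2 : ℤ
  c3 : ℤ
  c11 : ℤ
  c22 : ℤ
  c33 : ℤ
  c12 : ℤ
  c13 : ℤ
  c23 : ℤ

/-- sum of three roles -/
def comb (r1 r2 r3 : RP) : Q3 where
  c0 := r1.k0 + r2.k0 + r3.k0
  c1 := r1.kp + r2.ky + r3.ky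
  c2 := r1.ky + r2.kp + r3.kw
  c3 := r1.kw + r2.kw + r3.kp
  c11 := r1.kpp
  c22 := r2.kpp
  c33 := r3.kpp
  c12 := r3.kyw
  c13 := r2.kyw
  c23 := r1.kyw

/-- vertices, in sixths -/
structure V3 where
  x1 : ℤ
  x2 : ℤ
  x3 : ℤ

/-- `72` times the polar form at two vertices -/
def pol (p : Q3) (v w : V3) : ℤ :=
  72 * p.c0 + 6 * (p.c1 * (v.x1 + w.x1) + p.c2 * (v.x2 + w.x2) + p.c3 * (v.x3 + w.x3))
    + 2 * (p.c11 * (v.x1 * w.x1) + p.c22 * (v.x2 * w.x2) + p.c33 * (v.x3 * w.x3))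
    + p.c12 * (v.x1 * w.x2 + v.x2 * w.x1) + p.c13 * (v.x1 * w.x3 + v.x3 * w.x1)
    + p.c23 * (v.x2 * w.x3 + v.x3 * w.x2)

/-- the value is at most `-10^12` -/
def neg (p : Q3) (v w : V3) : Bool := decide (pol p v w ≤ -1000000000000)

/-- check on one simplex -/
def chkS (p : Q3) (v0 v1 v2 v3 : V3) : Bool :=
  neg p v0 v0 && neg p v0 v1 && neg p v0 v2 && neg p v0 v3 && neg p v1 v1 && neg p v1 v2 &&
    neg p v1 v3 && neg p v2 v2 && neg p v2 v3 && neg p v3 v3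

/-- check of the six simplices for three cells -/
def chkT (i j k : ℕ) : Bool :=
  chkS (comb (rp i j k 0 0) (rp j i k 0 0) (rp k i j 0 0)) ⟨0, 0, 0⟩ ⟨0, 0, 6⟩ ⟨0, 3, 3⟩ ⟨2, 2, 2⟩ &&
  chkS (comb (rp i j k 0 1) (rp j i k 0 1) (rp k i j 0 1)) ⟨0, 0, 6⟩ ⟨0, 3, 3⟩ ⟨2, 2, 2⟩ ⟨3, 3, 3⟩ &&
  chkS (comb (rp i j k 1 0) (rp j i k 0 1) (rp k i j 0 1)) ⟨0, 0, 6⟩ ⟨0, 6, 6⟩ ⟨0, 3, 3⟩ ⟨3, 3, 3⟩ &&
  chkS (comb (rp i j k 1 0) (rp j i k 1 0) (rp k i j 0 1)) ⟨0, 0, 6⟩ ⟨0, 6, 6⟩ ⟨3, 3, 3⟩ ⟨3, 3, 6⟩ &&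
  chkS (comb (rp i j k 1 0) (rp j i k 1 0) (rp k i j 1 0)) ⟨0, 6, 6⟩ ⟨3, 3, 3⟩ ⟨3, 3, 6⟩ ⟨4, 4, 4⟩ &&
  chkS (comb (rp i j k 1 1) (rp j i k 1 1) (rp k i j 1 1)) ⟨0, 6, 6⟩ ⟨3, 3, 6⟩ ⟨4, 4, 4⟩ ⟨6, 6, 6⟩

/-- conjunction over `i < n` -/
def allB (f : ℕ → Bool) : ℕ → Bool
  | 0 => true
  | n + 1 => f n && allB f n

end Pool.Agent.V7H29.DC
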