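import Pool.Agent.V7H29.DC.Lim
import Pool.Agent.H820R3.DG.Quad

/-!
# Digit counts of quadratic irrationals: the lower bound
-/

set_option autoImplicit false

open Finset

namespace Pool.Agent.V7H29.DC

open Pool.Agent.H394R2.Ones Pool.Agent.H820R3.DG

/-- sum of the deficiencies -/
lemma dd_sum {b : ℕ} {y : ℝ} (hb : 2 ≤ b) (hy0 : 0 < y) (hy1 : y < 1) (hirr : Irrational y)
    {A B C : ℤ} (hA : 0 < A) (hq : (A : ℝ) * y ^ 2 + B * y + C = 0) {τ : ℝ} (hτ0 : 0 ≤ τ)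
    {δ : ℝ} (hδ0 : 0 < δ) (hδ1 : δ ≤ 1 / 4) :
    ∃ C2 : ℝ, 0 ≤ C2 ∧ ∀ n : ℕ,
      ∑ m ∈ range n, dd b y τ |(B : ℝ)| m ≤ C2 * (K b y n + 1) + τ * δ * n := by
  have halg : IsAlgebraic ℚ y := by
    refine ⟨Polynomial.C (A : ℚ) * Polynomial.X ^ 2 + Polynomial.C (B : ℚ) * Polynomial.X +
      Polynomial.C (C : ℚ), ?_, ?_⟩
    · intro h
      have h1 := congrArg (fun p => Polynomial.coeff p 2) h
      simp only [Polynomial.coeff_add, Polynomial.coeff_C_mul, Polynomial.coeff_X_pow,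
        Polynomial.coeff_X, Polynomial.coeff_C, Polynomial.coeff_zero] at h1
      norm_num at h1
      omega
    · simp only [map_add, map_mul, map_pow, Polynomial.aeval_X, Polynomial.aeval_C]
      simpa using hq
  obtain ⟨C1, hC10, hC1⟩ := bad_count hb hy0 hy1 halg hirr |(B : ℝ)| δ hδ0 hδ1
  have hB0 : 0 ≤ |(B : ℝ)| := abs_nonneg _
  refine ⟨|(B : ℝ)| + 2 * τ + τ * C1 + τ, by positivity, fun n => ?_⟩
  have hK : (0 : ℝ) ≤ K b y n := Nat.cast_nonneg _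
  unfold dd
  rw [sum_add_distrib, sum_add_distrib, sum_add_distrib, ← mul_sum, ← mul_sum, ← mul_sum,
    sum_add_distrib]
  have h1 := ep_sum (b := b) hb hy0 hy1 n
  have h2 : (∑ m ∈ range n, (x b y m : ℝ)) ≤ K b y n := by
    unfold K
    exact_mod_cast sum_le_sum_of_subset (range_mono (Nat.le_succ n))
  have h3 : (∑ m ∈ range n, (exc b y m : ℝ)) ≤ K b y n := by
    exact_mod_cast exc_sum b y n
  have h4 : (∑ m ∈ range n, (if T b y m ≤ |(B : ℝ)| * ep b y m then (1 : ℝ) else 0)) ≤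
      C1 * (K b y n + 1) + δ * n := by
    have h5 := hC1 n
    rw [card_filter] at h5
    push_cast at h5
    exact h5
  have h5 := few_sum 0 n τ hτ0
  rw [Nat.cast_zero, zero_add, mul_one] at h5
  have h6 := mul_le_mul_of_nonneg_left h1 hB0
  have h7 := mul_le_mul_of_nonneg_left (add_le_add h2 h3) hτ0
  have h8 := mul_le_mul_of_nonneg_left h4 hτ0
  have h9 : 0 ≤ τ * K b y n := mul_nonneg hτ0 hK
  have e : (|(B : ℝ)| + 2 * τ + τ * C1 + τ) * ((K b y n : ℝ) + 1) =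
      |(B : ℝ)| * (K b y n + 1) + 2 * (τ * K b y n) + 2 * τ +
      τ * (C1 * (K b y n + 1)) + τ * K b y n + τ := by ring
  rw [e]
  linarith

/-- digit sums of quadratic irrationals in `(0, 1)` -/
theorem quad_best {b : ℕ} {y : ℝ} (hb : 2 ≤ b) (hy0 : 0 < y) (hy1 : y < 1)
    (hirr : Irrational y) {A B C : ℤ} (hA : 0 < A)
    (hq : (A : ℝ) * y ^ 2 + B * y + C = 0) :
    ∃ n0 : ℕ, ∀ n : ℕ, n0 ≤ n →
      Real.sqrt (9 * (((b : ℝ) - 1) * (((Int.gcd b (2 * A) : ℕ) : ℝ) / A)) / 8) *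
        Real.sqrt n ≤ K b y n := by
  have hbR : (2 : ℝ) ≤ b := by exact_mod_cast hb
  have hAR : (1 : ℝ) ≤ A := by exact_mod_cast hA
  have hg0 : 0 < Int.gcd b (2 * A) := Int.gcd_pos_of_ne_zero_left _ (by omega)
  set g : ℕ := Int.gcd b (2 * A) with hg
  have hgR : (1 : ℝ) ≤ g := by exact_mod_cast hg0
  set τ : ℝ := (g : ℝ) / A with hτ
  have hτ0 : 0 < τ := by positivity
  set X : ℝ := ((b : ℝ) - 1) * τ with hX
  have hX0 : 0 < X := mul_pos (by linarith) hτ0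
  set κ : ℝ := 7 * Real.sqrt (((b : ℝ) - 1) * g / (48 * A)) with hκ
  have hκ0 : 0 < κ := by
    have h1 : 0 < ((b : ℝ) - 1) * g / (48 * A) := by
      apply div_pos _ (by linarith)
      apply mul_pos (by linarith) (by linarith)
    have := Real.sqrt_pos.mpr h1
    positivity
  refine liminf_arg (K := K b y) (fun m n h => K_mono h) hX0 (c0 := κ / 2) (by positivity) ?_ ?_
  · obtain ⟨n0, hn0⟩ := quad_main hb hy0 hy1 hirr hA hq (κ / 2) (by positivity)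
    refine ⟨n0, fun n hn => ?_⟩
    have h1 := hn0 n hn
    rw [← hg, ← hκ] at h1
    have e : κ - κ / 2 = κ / 2 := by ring
    rwa [e] at h1
  · intro δ hδ
    have hδ' : 0 < min (1 / 4) (δ / (8 * X)) := by positivity
    obtain ⟨C2, hC20, hC2⟩ := dd_sum hb hy0 hy1 hirr hA hq hτ0.le hδ' (min_le_left _ _)
    set δ' : ℝ := min (1 / 4) (δ / (8 * X)) with hδdef
    have hδ2 : δ' * (8 * X) ≤ δ := by
      rw [← le_div_iff₀ (by positivity)]; exact min_le_right _ _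
    refine ⟨((b : ℝ) - 1) * C2, mul_nonneg (by linarith) hC20, fun L hL hboot hsmall => ?_⟩
    have hB0 : 0 ≤ |(B : ℝ)| := abs_nonneg _
    have h1 := fin_ineq hb hy0 hy1 hirr hτ0.le (d := dd b y τ |(B : ℝ)|)
      (fun m => dd_nonneg hy0 hτ0.le hB0 m) (fun m => T_lower' hb hy0 hy1 hirr hA hq m) hL
      (hC2 (8 * L - 1)) hboot hsmall
    refine h1.trans (mul_le_mul_of_nonneg_left ?_ (Nat.cast_nonneg _))
    have h2 : (((8 * L - 1 : ℕ) : ℕ) : ℝ) ≤ 8 * L := by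
      have : 8 * L - 1 ≤ 8 * L := by omega
      exact_mod_cast this
    have h3 : X * δ' * (((8 * L - 1 : ℕ) : ℕ) : ℝ) ≤ δ * L := by
      have e1 := mul_le_mul_of_nonneg_left h2 (by positivity : 0 ≤ X * δ')
      have e2 := mul_le_mul_of_nonneg_right hδ2 (Nat.cast_nonneg L : (0 : ℝ) ≤ L)
      linarith
    have h4 : ((b : ℝ) - 1) * (C2 * (K b y (8 * L - 1) + 1) +
        τ * δ' * (((8 * L - 1 : ℕ) : ℕ) : ℝ)) =
        ((b : ℝ) - 1) * C2 * (K b y (8 * L - 1) + 1) +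
        X * δ' * (((8 * L - 1 : ℕ) : ℕ) : ℝ) := by rw [hX]; ring
    rw [h4]
    linarith

/-- digit sums of real quadratic irrationals -/
theorem quad_real_best {b : ℕ} (hb : 2 ≤ b) {A B C : ℤ} (hA : 0 < A) {ξ : ℝ}
    (hirr : Irrational ξ) (hq : (A : ℝ) * ξ ^ 2 + B * ξ + C = 0) :
    ∃ n0 : ℕ, ∀ n : ℕ, n0 ≤ n →
      3 * Real.sqrt (((b : ℝ) - 1) * (Int.gcd b (2 * A) : ℕ) / (8 * A)) * Real.sqrt n ≤
        ((∑ k ∈ range n, ⌊ξ * (b : ℝ) ^ (k + 1)⌋ % (b : ℤ) : ℤ) : ℝ) := by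
  set y : ℝ := Int.fract ξ with hy
  have hξ : ξ = ⌊ξ⌋ + y := (Int.floor_add_fract ξ).symm
  have hyirr : Irrational y := by
    have : y = ξ - (⌊ξ⌋ : ℤ) := rfl
    rw [this]
    exact hirr.sub_intCast _
  have hy0 : 0 < y := lt_of_le_of_ne (Int.fract_nonneg ξ) (Ne.symm hyirr.ne_zero)
  have hy1 : y < 1 := Int.fract_lt_one ξ
  have hq' : (A : ℝ) * y ^ 2 + ((B + 2 * A * ⌊ξ⌋ : ℤ) : ℝ) * y +
      ((C + B * ⌊ξ⌋ + A * ⌊ξ⌋ ^ 2 : ℤ) : ℝ) = 0 := by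
    have h1 : (A : ℝ) * (⌊ξ⌋ + y) ^ 2 + B * (⌊ξ⌋ + y) + C = 0 := by rw [← hξ]; exact hq
    push_cast
    linarith
  obtain ⟨n0, hn0⟩ := quad_best hb hy0 hy1 hyirr hA hq'
  have hAR : (1 : ℝ) ≤ A := by exact_mod_cast hA
  have hbR : (2 : ℝ) ≤ b := by exact_mod_cast hb
  have hcst : 3 * Real.sqrt (((b : ℝ) - 1) * (Int.gcd b (2 * A) : ℕ) / (8 * A)) =
      Real.sqrt (9 * (((b : ℝ) - 1) * (((Int.gcd b (2 * A) : ℕ) : ℝ) / A)) / 8) := by
    have e1 : (9 * (((b : ℝ) - 1) * (((Int.gcd b (2 * A) : ℕ) : ℝ) / A)) / 8) =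
        3 ^ 2 * (((b : ℝ) - 1) * (Int.gcd b (2 * A) : ℕ) / (8 * A)) := by
      field_simp
      ring
    rw [e1, Real.sqrt_mul (by norm_num), Real.sqrt_sq (by norm_num)]
  rw [hcst]
  refine ⟨n0, fun n hn => (hn0 n hn).trans (le_of_eq ?_)⟩
  have hdig : ∀ k : ℕ, ⌊ξ * (b : ℝ) ^ (k + 1)⌋ % (b : ℤ) = (x b y (k + 1) : ℤ) := by
    intro k
    have h1 : ξ * (b : ℝ) ^ (k + 1) = ((⌊ξ⌋ * (b : ℤ) ^ (k + 1) : ℤ) : ℝ) +
        y * (b : ℝ) ^ (k + 1) := by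
      nth_rewrite 1 [hξ]
      push_cast
      ring
    rw [h1, Int.floor_intCast_add]
    unfold x Pool.Agent.H394R2.Ones.B
    push_cast
    rw [Int.natCast_floor_eq_floor (by positivity)]
    rw [show ⌊ξ⌋ * (b : ℤ) ^ (k + 1) + ⌊y * (b : ℝ) ^ (k + 1)⌋ =
      ⌊y * (b : ℝ) ^ (k + 1)⌋ + (b : ℤ) * (⌊ξ⌋ * (b : ℤ) ^ k) by ring, Int.add_mul_emod_self_left]
  simp only [hdig]
  unfold K
  rw [sum_range_succ']
  rw [x_zero hy0 hy1, add_zero]
  push_cast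
  rfl

end Pool.Agent.V7H29.DC
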