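import Pool.Agent.V7H29.DC.Sum

/-!
# Digit counts of quadratic irrationals: Riemann sums and variation
-/

set_option autoImplicit false

open Finset

namespace Pool.Agent.V7H29.DC

lemma block (g : ℕ → ℕ → ℝ) {L : ℕ} (hL : 0 < L) (Q : ℕ) :
    ∑ s ∈ range (Q * L), g (s / L) (s % L) = ∑ q ∈ range Q, ∑ V ∈ range L, g q V := by
  induction Q with
  | zero => simp
  | succ Q ih =>
    rw [Nat.succ_mul, sum_range_add, ih, sum_range_succ]
    congr 1
    refine sum_congr rfl fun V hV => ?_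
    rw [mem_range] at hV
    obtain ⟨h1, h2⟩ := (Nat.div_mod_unique hL (a := Q * L + V) (c := V) (d := Q)).mpr
      ⟨by ring, hV⟩
    rw [h1, h2]

lemma gauss (α β : ℝ) (n : ℕ) :
    ∑ V ∈ range n, (α + β * (V : ℝ)) = α * n + β * ((n : ℝ) * (n - 1) / 2) := by
  induction n with
  | zero => simp
  | succ n ih => rw [sum_range_succ, ih]; push_cast; ring

lemma inner (i q : ℕ) {M U : ℕ} (hM : 0 < M) :
    2 * ((M + U : ℕ) : ℝ) * ∑ V ∈ range (M + U),
      Fr i q ((U : ℝ) / (M + U : ℕ)) ((V : ℝ) / (M + U : ℕ)) =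
    10000 * (cA i q 0 * ((M : ℝ) * (M + 1)) + 2 * cA i q 1 * ((U : ℝ) * M)
      + cA i q 2 * ((M : ℝ) * (M - 1)) + cA i q 3 * ((U : ℝ) * (U - 1))
      + 2 * cA i q 4 * ((U : ℝ) * M) + cA i q 5 * ((U : ℝ) * (U + 1)))
      + (cB i q 0 * (((M : ℝ) + U) * (M + U + 1)) + cB i q 1 * (((M : ℝ) + U) * (M + U - 1))) := by
  have hM' : (0 : ℝ) < M := by exact_mod_cast hM
  have hU' : (0 : ℝ) ≤ U := Nat.cast_nonneg _
  have hL' : (0 : ℝ) < ((M + U : ℕ) : ℝ) := by push_cast; linarith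
  have h1 : ∀ V ∈ range M, ((M + U : ℕ) : ℝ) *
      Fr i q ((U : ℝ) / (M + U : ℕ)) ((V : ℝ) / (M + U : ℕ)) =
      (10000 * (cA i q 0 * M + cA i q 1 * U) + cB i q 0 * (M + U))
        + (10000 * (cA i q 2 - cA i q 0) + cB i q 1 - cB i q 0) * (V : ℝ) := by
    intro V hV
    rw [mem_range] at hV
    have hV' : (V : ℝ) + 1 ≤ M := by exact_mod_cast hV
    unfold Fr
    rw [if_pos]
    · push_cast at hL' ⊢
      field_simp
      ring
    · rw [← add_div, div_lt_one hL']
      push_cast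
      linarith
  have h2 : ∀ V ∈ range U, ((M + U : ℕ) : ℝ) *
      Fr i q ((U : ℝ) / (M + U : ℕ)) (((M + V : ℕ) : ℝ) / (M + U : ℕ)) =
      (10000 * (cA i q 4 * M + cA i q 5 * U) + cB i q 0 * U + cB i q 1 * M)
        + (10000 * (cA i q 3 - cA i q 5) + cB i q 1 - cB i q 0) * (V : ℝ) := by
    intro V hV
    have hV' : (0 : ℝ) ≤ V := Nat.cast_nonneg _
    unfold Fr
    rw [if_neg]
    · push_cast at hL' ⊢
      field_simp
      ring
    · rw [← add_div, div_lt_one hL']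
      push_cast
      linarith
  rw [mul_assoc, mul_sum, sum_range_add, sum_congr rfl h1, sum_congr rfl h2, gauss, gauss]
  ring

lemma cA_real {i q s : ℕ} (hi : i < 8) (hq : q < 8) (hs : s < 6) :
    (0 : ℝ) ≤ cA i q s ∧ (10000 : ℝ) * cA i q s ≤ 10000000000 :=
  ⟨by exact_mod_cast cA_nonneg i q s, by exact_mod_cast cA_le hi hq hs⟩

lemma cB_real {i q t : ℕ} (hi : i < 8) (hq : q < 8) (ht : t < 2) :
    (cB i q t : ℝ) ≤ 10000000000 ∧ (-10000000000 : ℝ) ≤ cB i q t :=
  ⟨by exact_mod_cast (cB_abs hi hq ht).1, by exact_mod_cast (cB_abs hi hq ht).2⟩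

lemma riem {L a : ℕ} (ha : a < 8 * L) :
    |2 * ∑ s ∈ range (8 * L), Fa L a s - L * Jr (a / L) (fr L a)| ≤ 320000000000 := by
  have hL : 0 < L := by omega
  have hi := cell_lt ha
  set i := a / L with hidef
  have hU := Nat.mod_lt a hL
  obtain ⟨M, hM⟩ : ∃ M, L = M + a % L := ⟨L - a % L, by omega⟩
  set U := a % L with hUdef
  have hM0 : 0 < M := by omega
  have hM' : (0 : ℝ) < M := by exact_mod_cast hM0
  have hU' : (0 : ℝ) ≤ U := Nat.cast_nonneg _
  have hLr : (L : ℝ) = M + U := by rw [hM]; push_cast; ring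
  have hL' : (0 : ℝ) < L := by exact_mod_cast hL
  have h1 : ∑ s ∈ range (8 * L), Fa L a s =
      ∑ q ∈ range 8, ∑ V ∈ range L, Fr i q ((U : ℝ) / L) ((V : ℝ) / L) :=
    block (fun q V => Fr i q ((U : ℝ) / L) ((V : ℝ) / L)) hL 8
  have h2 : 2 * (L : ℝ) * ∑ s ∈ range (8 * L), Fa L a s =
      ∑ q ∈ range 8, (10000 * (cA i q 0 * ((M : ℝ) * (M + 1)) + 2 * cA i q 1 * ((U : ℝ) * M)
      + cA i q 2 * ((M : ℝ) * (M - 1)) + cA i q 3 * ((U : ℝ) * (U - 1))
      + 2 * cA i q 4 * ((U : ℝ) * M) + cA i q 5 * ((U : ℝ) * (U + 1)))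
      + (cB i q 0 * (((M : ℝ) + U) * (M + U + 1)) +
        cB i q 1 * (((M : ℝ) + U) * (M + U - 1)))) := by
    rw [h1, mul_sum]
    refine sum_congr rfl fun q _ => ?_
    have h3 := inner i q (U := U) hM0
    rw [← hM] at h3
    exact h3
  obtain ⟨c0, c1, c2, c3, c4⟩ := cI_eq hi
  have h3 : (L : ℝ) * (L * Jr i (fr L a)) =
      ∑ q ∈ range 8, (10000 * (cA i q 0 + cA i q 2) * (M : ℝ) ^ 2
        + 2 * (10000 * cA i q 1) * ((U : ℝ) * M)
        + 10000 * (cA i q 3 + cA i q 5) * (U : ℝ) ^ 2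
        + 2 * (10000 * cA i q 4) * ((U : ℝ) * M)
        + (cB i q 0 + cB i q 1) * ((M : ℝ) + U) ^ 2) := by
    have e1 : (L : ℝ) * fr L a = U := by
      unfold fr
      field_simp
      rfl
    have e2 : (L : ℝ) * (1 - fr L a) = M := by
      rw [mul_sub, e1, hLr]; ring
    have e3 : (L : ℝ) * (L * Jr i (fr L a)) = cI i 0 * (M : ℝ) ^ 2
        + 2 * cI i 1 * ((U : ℝ) * M) + cI i 2 * (U : ℝ) ^ 2 + 2 * cI i 3 * ((U : ℝ) * M)
        + cI i 4 * (L : ℝ) ^ 2 := by
      rw [← e1, ← e2]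
      unfold Jr
      ring
    rw [e3, c0, c1, c2, c3, c4, hLr]
    push_cast
    simp only [sum_add_distrib, mul_sum, sum_mul, mul_add, add_mul]
  have h4 : (L : ℝ) * (2 * ∑ s ∈ range (8 * L), Fa L a s - L * Jr i (fr L a)) =
      ∑ q ∈ range 8, ((10000 * cA i q 0 - 10000 * cA i q 2) * (M : ℝ)
        + (10000 * cA i q 5 - 10000 * cA i q 3) * (U : ℝ)
        + (cB i q 0 - cB i q 1) * ((M : ℝ) + U)) := by
    rw [mul_sub, h3]
    have e : (L : ℝ) * (2 * ∑ s ∈ range (8 * L), Fa L a s) =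
      2 * (L : ℝ) * ∑ s ∈ range (8 * L), Fa L a s := by ring
    rw [e, h2, ← sum_sub_distrib]
    refine sum_congr rfl fun q _ => ?_
    ring
  have h5 : |(L : ℝ) * (2 * ∑ s ∈ range (8 * L), Fa L a s - L * Jr i (fr L a))| ≤
      320000000000 * L := by
    rw [h4]
    refine (abs_sum_le_sum_abs _ _).trans ?_
    have h6 : ∀ q ∈ range 8, |(10000 * cA i q 0 - 10000 * cA i q 2) * (M : ℝ)
        + (10000 * cA i q 5 - 10000 * cA i q 3) * (U : ℝ)
        + (cB i q 0 - cB i q 1) * ((M : ℝ) + U)| ≤ 40000000000 * (L : ℝ) := by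
      intro q hq
      rw [mem_range] at hq
      obtain ⟨a1, a2⟩ := cA_real hi hq (by norm_num : 0 < 6)
      obtain ⟨b1, b2⟩ := cA_real hi hq (by norm_num : 2 < 6)
      obtain ⟨d1, d2⟩ := cA_real hi hq (by norm_num : 3 < 6)
      obtain ⟨f1, f2⟩ := cA_real hi hq (by norm_num : 5 < 6)
      obtain ⟨g1, g2⟩ := cB_real hi hq (by norm_num : 0 < 2)
      obtain ⟨k1, k2⟩ := cB_real hi hq (by norm_num : 1 < 2)
      rw [hLr, abs_le]
      constructor <;> nlinarith
    refine (sum_le_sum h6).trans (le_of_eq ?_)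
    rw [sum_const, card_range, nsmul_eq_mul]
    push_cast
    ring
  rw [abs_mul, abs_of_pos hL', mul_comm] at h5
  exact le_of_mul_le_mul_right h5 hL'

lemma Fr_abs {i q : ℕ} (hi : i < 8) (hq : q < 8) {u v : ℝ} (hu0 : 0 ≤ u) (hu1 : u < 1)
    (hv0 : 0 ≤ v) (hv1 : v < 1) : |Fr i q u v| ≤ 20000000000 := by
  obtain ⟨a0, b0⟩ := cA_real hi hq (by norm_num : 0 < 6)
  obtain ⟨a1, b1⟩ := cA_real hi hq (by norm_num : 1 < 6)
  obtain ⟨a2, b2⟩ := cA_real hi hq (by norm_num : 2 < 6)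
  obtain ⟨a3, b3⟩ := cA_real hi hq (by norm_num : 3 < 6)
  obtain ⟨a4, b4⟩ := cA_real hi hq (by norm_num : 4 < 6)
  obtain ⟨a5, b5⟩ := cA_real hi hq (by norm_num : 5 < 6)
  obtain ⟨g1, g2⟩ := cB_real hi hq (by norm_num : 0 < 2)
  obtain ⟨k1, k2⟩ := cB_real hi hq (by norm_num : 1 < 2)
  have hB1 : cB i q 0 * (1 - v) + cB i q 1 * v ≤ 10000000000 := by nlinarith
  have hB2 : -10000000000 ≤ cB i q 0 * (1 - v) + cB i q 1 * v := by nlinarith
  unfold Fr
  split_ifs with h
  · have w0 : 0 ≤ 1 - u - v := by linarith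
    have t1 := mul_nonneg a0 w0
    have t2 := mul_nonneg a1 hu0
    have t3 := mul_nonneg a2 hv0
    have s1 := mul_le_mul_of_nonneg_right b0 w0
    have s2 := mul_le_mul_of_nonneg_right b1 hu0
    have s3 := mul_le_mul_of_nonneg_right b2 hv0
    rw [abs_le]
    constructor <;> linarith
  · have w0 : 0 ≤ u + v - 1 := by linarith
    have w1 : 0 ≤ 1 - u := by linarith
    have w2 : 0 ≤ 1 - v := by linarith
    have t1 := mul_nonneg a3 w0
    have t2 := mul_nonneg a4 w1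
    have t3 := mul_nonneg a5 w2
    have s1 := mul_le_mul_of_nonneg_right b3 w0
    have s2 := mul_le_mul_of_nonneg_right b4 w1
    have s3 := mul_le_mul_of_nonneg_right b5 w2
    rw [abs_le]
    constructor <;> linarith

lemma Fa_abs {L a s : ℕ} (ha : a < 8 * L) (hs : s < 8 * L) : |Fa L a s| ≤ 20000000000 :=
  Fr_abs (cell_lt ha) (cell_lt hs) (fr_nonneg L a) (fr_lt (by omega) a) (fr_nonneg L s)
    (fr_lt (by omega) s)

/-- bound for one step -/
noncomputable def ee (L U V : ℕ) : ℝ :=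
  30000000000 / L + (if V + 1 = L then 40000000000 else 0) +
    (if V + (U + 1) = L then 40000000000 else 0)

lemma step {L a s : ℕ} (ha : a < 8 * L) (hs : s + 1 < 8 * L) :
    |Fa L a (s + 1) - Fa L a s| ≤ ee L (a % L) (s % L) := by
  have hL : 0 < L := by omega
  have hL' : (0 : ℝ) < L := by exact_mod_cast hL
  have hb : |Fa L a (s + 1) - Fa L a s| ≤ 40000000000 := by
    have h1 := abs_sub (Fa L a (s + 1)) (Fa L a s)
    have h2 := Fa_abs (L := L) ha hs
    have h3 := Fa_abs (L := L) ha (by omega : s < 8 * L)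
    linarith
  have h0 : (0 : ℝ) ≤ 30000000000 / L := by positivity
  have hU := Nat.mod_lt a hL
  have hV := Nat.mod_lt s hL
  unfold ee
  by_cases hc1 : s % L + 1 = L
  · rw [if_pos hc1]
    split_ifs <;> linarith
  by_cases hc2 : s % L + (a % L + 1) = L
  · rw [if_neg hc1, if_pos hc2]
    linarith
  rw [if_neg hc1, if_neg hc2, add_zero, add_zero]
  have hms := Nat.mod_add_div s L
  obtain ⟨e1, e2⟩ := (Nat.div_mod_unique hL (a := s + 1) (c := s % L + 1) (d := s / L)).mpr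
    ⟨by omega, by omega⟩
  have hq : s / L < 8 := cell_lt (by omega)
  have hi := cell_lt ha
  have hfr : fr L (s + 1) = fr L s + 1 / L := by
    unfold fr
    rw [e2]; push_cast; ring
  obtain ⟨a0, b0⟩ := cA_real hi hq (by norm_num : 0 < 6)
  obtain ⟨a2, b2⟩ := cA_real hi hq (by norm_num : 2 < 6)
  obtain ⟨a3, b3⟩ := cA_real hi hq (by norm_num : 3 < 6)
  obtain ⟨a5, b5⟩ := cA_real hi hq (by norm_num : 5 < 6)
  obtain ⟨g1, g2⟩ := cB_real hi hq (by norm_num : 0 < 2)
  obtain ⟨k1, k2⟩ := cB_real hi hq (by norm_num : 1 < 2)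
  have hinv : (0 : ℝ) < 1 / L := by positivity
  have hconv : (30000000000 : ℝ) / L = 30000000000 * (1 / L) := by ring
  unfold Fa Fr
  rw [e1, hfr, hconv]
  by_cases hlow : s % L + (a % L + 1) < L
  · have h5 : fr L a + (fr L s + 1 / L) < 1 := by
      unfold fr
      rw [← add_div, ← add_div, div_lt_one hL']
      have h6 : s % L + a % L + 1 < L := by omega
      have : ((s % L : ℕ) : ℝ) + ((a % L : ℕ) : ℝ) + 1 < L := by exact_mod_cast h6
      linarith
    have h7 : fr L a + fr L s < 1 := by linarith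
    rw [if_pos h5, if_pos h7]
    set t : ℝ := 1 / L
    rw [abs_le]
    constructor <;> nlinarith
  · have h7 : ¬ fr L a + fr L s < 1 := by
      unfold fr
      rw [← add_div, div_lt_one hL', not_lt]
      have h6 : L ≤ a % L + s % L := by omega
      exact_mod_cast h6
    have h5 : ¬ fr L a + (fr L s + 1 / L) < 1 := by
      intro h; apply h7; linarith
    rw [if_neg h5, if_neg h7]
    set t : ℝ := 1 / L
    rw [abs_le]
    constructor <;> nlinarith

lemma one_sum {L k : ℕ} {c : ℝ} (hc : 0 ≤ c) :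
    ∑ V ∈ range L, (if V + k = L then c else 0) ≤ c := by
  rw [← sum_filter, sum_const, nsmul_eq_mul]
  have h1 : ((range L).filter fun V => V + k = L).card ≤ 1 := by
    rw [card_le_one]
    intro x hx y hy
    simp only [mem_filter, mem_range] at hx hy
    omega
  have h2 : ((((range L).filter fun V => V + k = L).card : ℕ) : ℝ) ≤ 1 := by exact_mod_cast h1
  nlinarith

lemma var {L a n : ℕ} (ha : a < 8 * L) (hn : n + 1 = 8 * L) :
    ∑ s ∈ range n, |Fa L a (s + 1) - Fa L a s| ≤ 880000000000 := by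
  have hL : 0 < L := by omega
  have hL' : (0 : ℝ) < L := by exact_mod_cast hL
  have h1 : ∑ s ∈ range n, |Fa L a (s + 1) - Fa L a s| ≤
      ∑ s ∈ range n, ee L (a % L) (s % L) :=
    sum_le_sum fun s hs => step ha (by have := mem_range.mp hs; omega)
  have h2 : ∑ s ∈ range n, ee L (a % L) (s % L) ≤ ∑ s ∈ range (8 * L), ee L (a % L) (s % L) := by
    refine sum_le_sum_of_subset_of_nonneg (range_mono (by omega)) fun s _ _ => ?_
    unfold ee
    positivity
  have h3 : ∑ s ∈ range (8 * L), ee L (a % L) (s % L) =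
      ∑ q ∈ range 8, ∑ V ∈ range L, ee L (a % L) V :=
    block (fun _ V => ee L (a % L) V) hL 8
  have h4 : ∑ V ∈ range L, ee L (a % L) V ≤ 110000000000 := by
    unfold ee
    rw [sum_add_distrib, sum_add_distrib, sum_const, card_range, nsmul_eq_mul]
    have e1 : (L : ℝ) * (30000000000 / L) = 30000000000 := by field_simp
    have e2 := one_sum (L := L) (k := 1) (c := 40000000000) (by norm_num)
    have e3 := one_sum (L := L) (k := a % L + 1) (c := 40000000000) (by norm_num)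
    linarith
  simp only [sum_const, card_range, nsmul_eq_mul] at h3
  push_cast at h3
  linarith

end Pool.Agent.V7H29.DC
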