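import Pool.Agent.V7H29.DC.Point2
import Pool.Agent.H394R2.Ones2

/-!
# Digit counts of quadratic irrationals: sums over places
-/

set_option autoImplicit false

open Finset

namespace Pool.Agent.V7H29.DC

/-- position of a place inside its cell -/
noncomputable def fr (L a : ℕ) : ℝ := ((a % L : ℕ) : ℝ) / L

lemma fr_nonneg (L a : ℕ) : 0 ≤ fr L a := by
  unfold fr; positivity

lemma fr_lt {L : ℕ} (hL : 0 < L) (a : ℕ) : fr L a < 1 := by
  unfold fr
  have hL' : (0 : ℝ) < L := by exact_mod_cast hL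
  rw [div_lt_one hL']
  exact_mod_cast Nat.mod_lt a hL

lemma cell_lt {L a : ℕ} (h : a < 8 * L) : a / L < 8 :=
  Nat.div_lt_of_lt_mul (by rw [mul_comm]; exact h)

lemma add_split {L : ℕ} (hL : 0 < L) (c e : ℕ) :
    (fr L c + fr L e < 1 ∧ (c + e) / L = c / L + e / L ∧ fr L (c + e) = fr L c + fr L e) ∨
    (¬ fr L c + fr L e < 1 ∧ (c + e) / L = c / L + e / L + 1 ∧
      fr L (c + e) = fr L c + fr L e - 1) := by
  have hL' : (0 : ℝ) < L := by exact_mod_cast hL
  have h1 := Nat.mod_add_div c L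
  have h2 := Nat.mod_add_div e L
  have h3 := Nat.mod_lt c hL
  have h4 := Nat.mod_lt e hL
  rcases Nat.lt_or_ge (c % L + e % L) L with h | h
  · left
    obtain ⟨h5, h6⟩ := (Nat.div_mod_unique hL (a := c + e) (c := c % L + e % L)
      (d := c / L + e / L)).mpr ⟨by rw [mul_add]; omega, h⟩
    refine ⟨?_, h5, ?_⟩
    · unfold fr
      rw [← add_div, div_lt_one hL']
      exact_mod_cast h
    · unfold fr
      rw [h6]; push_cast; ring
  · right
    obtain ⟨h5, h6⟩ := (Nat.div_mod_unique hL (a := c + e) (c := c % L + e % L - L)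
      (d := c / L + e / L + 1)).mpr ⟨by rw [mul_add, mul_add, mul_one]; omega, by omega⟩
    refine ⟨?_, h5, ?_⟩
    · unfold fr
      rw [← add_div, div_lt_one hL', not_lt]
      exact_mod_cast h
    · unfold fr
      rw [h6, Nat.cast_sub h]; push_cast; field_simp

/-- the test function at two places -/
noncomputable def Fa (L a s : ℕ) : ℝ := Fr (a / L) (s / L) (fr L a) (fr L s)

lemma Ph_eq {L : ℕ} (hL : 0 < L) (a c e : ℕ) :
    Ph (a / L) (fr L a) (c / L) (fr L c) (e / L) (fr L e) = Fa L a (c + e) := by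
  unfold Ph Fa
  rcases add_split hL c e with ⟨h1, h2, h3⟩ | ⟨h1, h2, h3⟩
  · rw [if_pos h1, h2, h3]
  · rw [if_neg h1, h2, h3]

lemma Fa_zero {L a s : ℕ} (hL : 0 < L) (ha : a < 8 * L) (hs : 8 * L ≤ s) : Fa L a s = 0 := by
  have h1 : a / L < 8 := cell_lt ha
  have h2 : 8 ≤ s / L := (Nat.le_div_iff_mul_le hL).mpr hs
  unfold Fa Fr
  simp only [cA_ge h1 h2, cB_ge h1 h2]
  split_ifs <;> push_cast <;> ring

section
variable (p : ℕ → ℝ) (hp : ∀ a, 0 ≤ p a)

/-- total weight -/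
noncomputable def tot (n : ℕ) : ℝ := ∑ a ∈ range n, p a

/-- convolution -/
noncomputable def cv (m : ℕ) : ℝ := ∑ q ∈ antidiagonal m, p q.1 * p q.2

/-- the role at three places -/
noncomputable def Ra (L a c e : ℕ) : ℝ :=
  role (a / L) (fr L a) (c / L) (fr L c) (e / L) (fr L e)

include hp in
lemma S3_le {L : ℕ} (hL : 0 < L) :
    72 * (3 * ∑ a ∈ range (8 * L), ∑ c ∈ range (8 * L), ∑ e ∈ range (8 * L),
      p a * p c * p e * Ra L a c e) ≤ -1000000000000 * tot p (8 * L) ^ 3 := by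
  set s := range (8 * L) with hs
  set f : ℕ → ℕ → ℕ → ℝ := fun a c e => p a * p c * p e * Ra L a c e with hf
  have e1 : ∑ a ∈ s, ∑ c ∈ s, ∑ e ∈ s, f c a e = ∑ a ∈ s, ∑ c ∈ s, ∑ e ∈ s, f a c e :=
    sum_comm
  have e2 : ∑ a ∈ s, ∑ c ∈ s, ∑ e ∈ s, f e a c = ∑ a ∈ s, ∑ c ∈ s, ∑ e ∈ s, f a c e := by
    have h1 : ∀ a ∈ s, ∑ c ∈ s, ∑ e ∈ s, f e a c = ∑ e ∈ s, ∑ c ∈ s, f e a c :=
      fun a _ => sum_comm
    rw [sum_congr rfl h1]
    exact sum_comm
  have e3 : 3 * ∑ a ∈ s, ∑ c ∈ s, ∑ e ∈ s, f a c e =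
      ∑ a ∈ s, ∑ c ∈ s, ∑ e ∈ s, (f a c e + f c a e + f e a c) := by
    simp only [sum_add_distrib]
    rw [e1, e2]; ring
  have e4 : ∀ a ∈ s, ∀ c ∈ s, ∀ e ∈ s, 72 * (f a c e + f c a e + f e a c) ≤
      -1000000000000 * (p a * p c * p e) := by
    intro a ha c hc e he
    rw [hs, mem_range] at ha hc he
    have h := W_neg (cell_lt ha) (cell_lt hc) (cell_lt he) (fr_nonneg L a) (fr_lt hL a)
      (fr_nonneg L c) (fr_lt hL c) (fr_nonneg L e) (fr_lt hL e)
    have hpp : 0 ≤ p a * p c * p e := mul_nonneg (mul_nonneg (hp a) (hp c)) (hp e)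
    have h2 := mul_le_mul_of_nonneg_left h hpp
    have h3 : 72 * (f a c e + f c a e + f e a c) = p a * p c * p e *
        (72 * W (a / L) (fr L a) (c / L) (fr L c) (e / L) (fr L e)) := by
      simp only [hf]
      unfold W Ra
      ring
    rw [h3]
    linarith
  rw [e3, mul_sum]
  have e5 : ∀ a ∈ s, 72 * ∑ c ∈ s, ∑ e ∈ s, (f a c e + f c a e + f e a c) ≤
      -1000000000000 * (p a * (∑ c ∈ s, p c) * ∑ e ∈ s, p e) := by
    intro a ha
    have h1 : -1000000000000 * (p a * (∑ c ∈ s, p c) * ∑ e ∈ s, p e) =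
        ∑ c ∈ s, ∑ e ∈ s, -1000000000000 * (p a * p c * p e) := by
      simp only [← mul_sum]
      rw [mul_assoc (p a), sum_mul, mul_sum]
      congr 1
      refine sum_congr rfl fun c _ => ?_
      ring
    rw [h1, mul_sum]
    refine sum_le_sum fun c hc => ?_
    rw [mul_sum]
    exact sum_le_sum fun e he => e4 a ha c hc e he
  refine (sum_le_sum e5).trans (le_of_eq ?_)
  rw [← mul_sum]
  unfold tot
  simp only [mul_assoc]
  rw [← sum_mul, ← hs]
  ring

/-- the vectors of the squares -/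
noncomputable def hv (i m j : ℕ) (u : ℝ) : ℝ := cH i (2 * j) m * (1 - u) + cH i (2 * j + 1) m * u

lemma Kr_eq {i j k : ℕ} (hi : i < 8) (hj : j < 8) (hk : k < 8) (u v : ℝ) :
    Kr i j k u v = ∑ m ∈ range 16, hv i m j u * hv i m k v := by
  unfold Kr
  rw [cG_eq hi (by omega : 2 * j < 16) (by omega : 2 * k < 16),
    cG_eq hi (by omega : 2 * j < 16) (by omega : 2 * k + 1 < 16),
    cG_eq hi (by omega : 2 * j + 1 < 16) (by omega : 2 * k < 16),
    cG_eq hi (by omega : 2 * j + 1 < 16) (by omega : 2 * k + 1 < 16)]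
  push_cast
  rw [sum_mul, sum_mul, sum_mul, sum_mul, ← sum_add_distrib, ← sum_add_distrib,
    ← sum_add_distrib]
  refine sum_congr rfl fun m _ => ?_
  unfold hv
  ring

lemma K_nonneg {L : ℕ} {i : ℕ} (hi : i < 8) :
    0 ≤ ∑ c ∈ range (8 * L), ∑ e ∈ range (8 * L),
      p c * p e * Kr i (c / L) (e / L) (fr L c) (fr L e) := by
  have h1 : ∑ c ∈ range (8 * L), ∑ e ∈ range (8 * L),
      p c * p e * Kr i (c / L) (e / L) (fr L c) (fr L e) =
      ∑ m ∈ range 16, (∑ c ∈ range (8 * L), p c * hv i m (c / L) (fr L c)) ^ 2 := by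
    have h2 : ∀ c ∈ range (8 * L), ∀ e ∈ range (8 * L),
        p c * p e * Kr i (c / L) (e / L) (fr L c) (fr L e) = ∑ m ∈ range 16,
          (p c * hv i m (c / L) (fr L c)) * (p e * hv i m (e / L) (fr L e)) := by
      intro c hc e he
      rw [mem_range] at hc he
      rw [Kr_eq hi (cell_lt hc) (cell_lt he), mul_sum]
      refine sum_congr rfl fun m _ => ?_
      ring
    rw [sum_congr rfl fun c hc => sum_congr rfl fun e he => h2 c hc e he]
    have h3 : ∀ c ∈ range (8 * L), ∑ e ∈ range (8 * L), ∑ m ∈ range 16,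
        (p c * hv i m (c / L) (fr L c)) * (p e * hv i m (e / L) (fr L e)) =
        ∑ m ∈ range 16, ∑ e ∈ range (8 * L),
        (p c * hv i m (c / L) (fr L c)) * (p e * hv i m (e / L) (fr L e)) :=
      fun c _ => sum_comm
    rw [sum_congr rfl h3, sum_comm]
    refine sum_congr rfl fun m _ => ?_
    rw [sq, sum_mul_sum]
  rw [h1]
  exact sum_nonneg fun m _ => sq_nonneg _

lemma Ph_sum {L a : ℕ} (hL : 0 < L) (ha : a < 8 * L) :
    ∑ c ∈ range (8 * L), ∑ e ∈ range (8 * L), p c * p e *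
      Ph (a / L) (fr L a) (c / L) (fr L c) (e / L) (fr L e) =
    ∑ s ∈ range (8 * L), cv p s * Fa L a s := by
  obtain ⟨n, hn⟩ : ∃ n, 8 * L = n + 1 := ⟨8 * L - 1, by omega⟩
  have h1 := Pool.Agent.H394R2.Ones.pair_sum n (fun c e => p c * p e * Fa L a (c + e))
  rw [sum_product] at h1
  simp only at h1
  rw [hn]
  simp only [Ph_eq hL]
  rw [h1]
  have h2 : ∑ q ∈ (range (n + 1) ×ˢ range (n + 1)).filter (fun q => ¬ q.1 + q.2 ≤ n),
      p q.1 * p q.2 * Fa L a (q.1 + q.2) = 0 := by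
    refine sum_eq_zero fun q hq => ?_
    rw [mem_filter] at hq
    rw [Fa_zero hL ha (by omega), mul_zero]
  rw [h2, add_zero]
  refine sum_congr rfl fun m _ => ?_
  unfold cv
  rw [sum_mul]
  refine sum_congr rfl fun q hq => ?_
  rw [HasAntidiagonal.mem_antidiagonal] at hq
  rw [hq]

/-- the averaged test function -/
noncomputable def Ga (L s : ℕ) : ℝ := ∑ a ∈ range (8 * L), p a * Fa L a s

/-- the averaged integral -/
noncomputable def Ja (L : ℕ) : ℝ := ∑ a ∈ range (8 * L), p a * Jr (a / L) (fr L a)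

include hp in
/-- the consequence of the pointwise inequality -/
theorem S3_main {L : ℕ} (hL : 0 < L) :
    216 * (20000 * ∑ s ∈ range (8 * L), cv p s * Ga p L s
      - 1111 * Ja p L * tot p (8 * L) ^ 2) ≤ -1000000000000 * tot p (8 * L) ^ 3 := by
  refine le_trans ?_ (S3_le p hp hL)
  have h1 : ∀ a ∈ range (8 * L), p a * (20000 * ∑ s ∈ range (8 * L), cv p s * Fa L a s
      - 1111 * Jr (a / L) (fr L a) * tot p (8 * L) ^ 2) ≤
      ∑ c ∈ range (8 * L), ∑ e ∈ range (8 * L), p a * p c * p e * Ra L a c e := by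
    intro a ha
    rw [mem_range] at ha
    have h2 := K_nonneg p (L := L) (cell_lt ha)
    have h3 : ∑ c ∈ range (8 * L), ∑ e ∈ range (8 * L), p a * p c * p e * Ra L a c e =
        p a * (20000 * (∑ c ∈ range (8 * L), ∑ e ∈ range (8 * L), p c * p e *
          Ph (a / L) (fr L a) (c / L) (fr L c) (e / L) (fr L e)) +
        200000 * (∑ c ∈ range (8 * L), ∑ e ∈ range (8 * L),
          p c * p e * Kr (a / L) (c / L) (e / L) (fr L c) (fr L e)) -
        1111 * Jr (a / L) (fr L a) * tot p (8 * L) ^ 2) := by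
      have h4 : tot p (8 * L) ^ 2 = ∑ c ∈ range (8 * L), ∑ e ∈ range (8 * L), p c * p e := by
        unfold tot
        rw [sq, sum_mul_sum]
      rw [h4]
      simp only [mul_sum]
      rw [← sum_add_distrib, ← sum_sub_distrib, mul_sum]
      refine sum_congr rfl fun c _ => ?_
      rw [← sum_add_distrib, ← sum_sub_distrib, mul_sum]
      refine sum_congr rfl fun e _ => ?_
      unfold Ra role
      ring
    rw [h3, Ph_sum p hL ha]
    refine mul_le_mul_of_nonneg_left ?_ (hp a)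
    linarith
  have h5 := sum_le_sum h1
  have h6 : ∑ a ∈ range (8 * L), p a * (20000 * ∑ s ∈ range (8 * L), cv p s * Fa L a s
      - 1111 * Jr (a / L) (fr L a) * tot p (8 * L) ^ 2) =
      20000 * ∑ s ∈ range (8 * L), cv p s * Ga p L s - 1111 * Ja p L * tot p (8 * L) ^ 2 := by
    have h7 : ∑ s ∈ range (8 * L), cv p s * Ga p L s =
        ∑ a ∈ range (8 * L), ∑ s ∈ range (8 * L), p a * (cv p s * Fa L a s) := by
      unfold Ga
      simp only [mul_sum]
      rw [sum_comm]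
      refine sum_congr rfl fun a _ => sum_congr rfl fun s _ => ?_
      ring
    rw [h7]
    unfold Ja
    rw [mul_sum, mul_sum, sum_mul, ← sum_sub_distrib]
    refine sum_congr rfl fun a _ => ?_
    rw [mul_sub, mul_sum, mul_sum, mul_sum]
    congr 1
    · refine sum_congr rfl fun s _ => ?_
      ring
    · ring
  rw [h6] at h5
  linarith

end

end Pool.Agent.V7H29.DC
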